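import Pool.Agent.Helper18.BR.Fin

/-!
# The reduction to wreath products with alternating groups
-/

set_option autoImplicit false
set_option linter.unusedSectionVars false

open scoped Classical
open MonoidAlgebra

noncomputable section

namespace Pool.Agent.Helper18.BR

theorem altSuffice (p : ℕ) [Fact p.Prime] (Λ : Type) [CommRing Λ] [IsLocalRing Λ]
    (hp : ¬ IsUnit (p : Λ)) (S : Type) [Group S] [Finite S] (hS : IsUnit (Nat.card S : Λ))
    (h : Good Λ S) : AltSuffice p Λ S := by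
  intro P _ N hN
  refine ⟨fun h1 n _ Γ => h1 _, fun h1 G _ _ => ?_⟩
  obtain ⟨n, hn, hn2⟩ := hN.exists_gt (2 * Nat.card G)
  obtain ⟨i, hi⟩ := exists_alt G n hn2.le
  obtain ⟨m, i1, i2, ⟨M⟩⟩ := h.exists_matBlock hS
  exact broue_of_wr p hp (dbRel Λ) (morInv_db Λ) S hS M P G _ i hi (h1 n hn i.range)

theorem isUnit_of_coprime (p : ℕ) (Λ : Type) [CommRing Λ] [IsLocalRing Λ]
    (hp : ¬ IsUnit (p : Λ)) (n : ℕ) (hn : n.Coprime p) : IsUnit (n : Λ) := by
  have h1 : IsCoprime ((n : ℤ) : Λ) ((p : ℤ) : Λ) :=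
    (Nat.isCoprime_iff_coprime.2 hn).map (Int.castRingHom Λ)
  rw [Int.cast_natCast, Int.cast_natCast] at h1
  obtain ⟨a, b, hab⟩ := h1
  rcases IsLocalRing.isUnit_or_isUnit_of_add_one hab with h | h
  · exact isUnit_of_mul_isUnit_right h
  · exact absurd (isUnit_of_mul_isUnit_right h) hp

theorem a5_two (a b c d : Fin 5) (h : a ≠ b) (h' : c ≠ d) :
    ∃ g : alternatingGroup (Fin 5), g • a = c ∧ g • b = d := by
  have h1 := alternatingGroup.isMultiplyPretransitive (Fin 5)
  rw [Nat.card_eq_fintype_card, Fintype.card_fin] at h1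
  have h2 : MulAction.IsMultiplyPretransitive (alternatingGroup (Fin 5)) (Fin 5) 2 :=
    MulAction.isMultiplyPretransitive_of_le (n := 5 - 2) (by norm_num) (by
      rw [Nat.card_eq_fintype_card, Fintype.card_fin]
      norm_num)
  exact MulAction.is_two_pretransitive_iff.1 h2 h h'

theorem a5_unit (p : ℕ) [hpp : Fact p.Prime] (Λ : Type) [CommRing Λ] [IsLocalRing Λ]
    (hp : ¬ IsUnit (p : Λ)) (h7 : 7 ≤ p) : IsUnit (Nat.card (alternatingGroup (Fin 5)) : Λ) := by
  apply isUnit_of_coprime p Λ hp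
  have h1 : Nat.Coprime (Nat.factorial 5) p := by
    rw [Nat.coprime_comm, Nat.Prime.coprime_iff_not_dvd hpp.out, Nat.Prime.dvd_factorial hpp.out]
    omega
  refine Nat.Coprime.coprime_dvd_left ?_ h1
  have h2 := two_mul_nat_card_alternatingGroup (α := Fin 5)
  rw [Nat.card_perm, Nat.card_eq_fintype_card (α := Fin 5), Fintype.card_fin] at h2
  exact ⟨2, by rw [mul_comm, h2]⟩

end Pool.Agent.Helper18.BR
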