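import Pool.Agent.Helper18.BR.Inf

/-!
# The Brauer homomorphism and defect groups
-/

set_option autoImplicit false
set_option linter.unusedSectionVars false

open scoped Classical
open MonoidAlgebra

noncomputable section

namespace Pool.Agent.Helper18.BR

/-- sums of invariant functions over the orbits of a `p`-group -/
theorem sum_fixed0 {k : Type} [CommRing k] (p : ℕ) [Fact p.Prime] [CharP k p] {D Ω : Type}
    [Group D] [Finite D] (hD : IsPGroup p D) [MulAction D Ω] [Fintype Ω] (f : Ω → k)
    (hf : ∀ (d : D) (w : Ω), f (d • w) = f w) :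
    ∑ w, f w = ∑ w ∈ Finset.univ.filter (fun w => ∀ d : D, d • w = w), f w := by
  have key : ∀ c : k, ((Finset.univ.filter fun w => f w = c).card : k) =
      (((Finset.univ.filter fun w : Ω => ∀ d : D, d • w = w).filter fun w => f w = c).card : k) := by
    intro c
    let W : Type := {w : Ω // f w = c}
    let _ : MulAction D W :=
      { smul := fun d w => ⟨d • w.1, by rw [hf, w.2]⟩
        one_smul := fun w => Subtype.ext (one_smul D w.1)
        mul_smul := fun d d' w => Subtype.ext (mul_smul d d' w.1) }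
    have h1 := hD.card_modEq_card_fixedPoints W
    have h2 : Nat.card W = (Finset.univ.filter fun w => f w = c).card := by
      rw [Nat.card_eq_fintype_card, Fintype.card_subtype]
    have h3 : Nat.card (MulAction.fixedPoints D W) =
        ((Finset.univ.filter fun w : Ω => ∀ d : D, d • w = w).filter fun w => f w = c).card := by
      have e : MulAction.fixedPoints D W ≃ {w : Ω // (∀ d : D, d • w = w) ∧ f w = c} :=
        { toFun := fun w => ⟨w.1.1, fun d => congrArg Subtype.val (w.2 d), w.1.2⟩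
          invFun := fun w => ⟨⟨w.1, w.2.2⟩, fun d => Subtype.ext (w.2.1 d)⟩
          left_inv := fun w => rfl
          right_inv := fun w => rfl }
      rw [Nat.card_congr e, Nat.card_eq_fintype_card, Fintype.card_subtype, Finset.filter_filter]
    rw [h2, h3] at h1
    exact (CharP.natCast_eq_natCast k p).2 h1
  have h4 : ∀ s : Finset Ω, ∑ w ∈ s, f w =
      ∑ c ∈ Finset.univ.image f, ((s.filter fun w => f w = c).card : k) * c := by
    intro s
    rw [← Finset.sum_fiberwise_of_maps_to (t := Finset.univ.image f) (g := f)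
      (fun w _ => Finset.mem_image_of_mem f (Finset.mem_univ w))]
    refine Finset.sum_congr rfl fun c _ => ?_
    rw [← nsmul_eq_mul, ← Finset.sum_const]
    exact Finset.sum_congr rfl fun w hw => (Finset.mem_filter.1 hw).2
  rw [h4, h4]
  exact Finset.sum_congr rfl fun c _ => by rw [key]

theorem sum_fixed {k : Type} [CommRing k] (p : ℕ) [Fact p.Prime] [CharP k p] {D Ω : Type}
    [Group D] [Finite D] (hD : IsPGroup p D) [MulAction D Ω] [Fintype Ω]
    [i : DecidablePred fun w : Ω => ∀ d : D, d • w = w] (f : Ω → k)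
    (hf : ∀ (d : D) (w : Ω), f (d • w) = f w) :
    ∑ w, f w = ∑ w ∈ Finset.univ.filter (fun w => ∀ d : D, d • w = w), f w := by
  have h : i = fun w => Classical.propDecidable _ := Subsingleton.elim _ _
  subst h
  exact sum_fixed0 p hD f hf

/-- sums over cosets -/
theorem sum_cosets {X M ι : Type} [Group X] [Finite X] [AddCommMonoid M] (D : Subgroup X)
    [Fintype ι] (g : ι → X) (hg : Function.Bijective fun i => (QuotientGroup.mk (g i) : X ⧸ D))
    (F : X → M) (hF : ∀ x, ∀ d ∈ D, F (x * d) = F x) :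
    ∑ q : X ⧸ D, F (rp q) = ∑ i, F (g i) := by
  symm
  refine Fintype.sum_equiv (Equiv.ofBijective _ hg) _ _ fun i => ?_
  rw [Equiv.ofBijective_apply]
  have h1 : (g i)⁻¹ * rp (QuotientGroup.mk (g i) : X ⧸ D) ∈ D := by
    rw [← QuotientGroup.eq, QuotientGroup.out_eq']
  have h2 : rp (QuotientGroup.mk (g i) : X ⧸ D) =
      g i * ((g i)⁻¹ * rp (QuotientGroup.mk (g i) : X ⧸ D)) := by group
  rw [h2, hF _ _ h1]

section loc

variable {Λ : Type} [CommRing Λ] [IsLocalRing Λ] {X : Type} [Group X] [Finite X]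

/-- the residue map -/
abbrev rd : Λ →+* IsLocalRing.ResidueField Λ := IsLocalRing.residue Λ

theorem rd_ne {a : Λ} : rd a ≠ 0 ↔ IsUnit a := by
  rw [Ne, IsLocalRing.residue_eq_zero_iff, IsLocalRing.mem_maximalIdeal, mem_nonunits_iff, not_not]

theorem rd_eq {a b : Λ} : rd a = rd b ↔ ¬ IsUnit (a - b) := by
  rw [← rd_ne, not_not, map_sub, sub_eq_zero]

theorem charP_res (p : ℕ) [Fact p.Prime] (hp : ¬ IsUnit (p : Λ)) :
    CharP (IsLocalRing.ResidueField Λ) p := by
  refine (CharP.charP_iff_prime_eq_zero ‹Fact p.Prime›.out).2 ?_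
  by_contra h
  rw [← map_natCast (rd (Λ := Λ))] at h
  exact hp (rd_ne.1 h)

/-- blocks which are relative traces from `D`: the other `p`-subgroups with nonvanishing Brauer
homomorphism are conjugate to subgroups of `D` -/
theorem sub_of_brNe (p : ℕ) [Fact p.Prime] (hp : ¬ IsUnit (p : Λ)) {D E : Subgroup X}
    {e : MonoidAlgebra Λ X} (he : IsTr D e) (hE : IsPGroup p E) (h : BrNe e E) :
    ∃ x : X, ∀ y ∈ E, x⁻¹ * y * x ∈ D := by
  have := charP_res p hp
  obtain ⟨a, ha, rfl⟩ := he
  obtain ⟨z, hz, hu⟩ := h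
  by_contra hno
  rw [← rd_ne] at hu
  apply hu
  have hinv : ∀ (x : X), ∀ d ∈ D, ∀ w : X, a.coeff (d⁻¹ * w * d) = a.coeff w := by
    intro _ d hd w
    conv_rhs => rw [← ha d hd]
    rw [cj_coeff]
  rw [coeff_sum, Finset.sum_apply', map_sum]
  rw [sum_fixed p hE (fun q : X ⧸ D => rd ((cj (rp q) a).coeff z)) ?_]
  · rw [Finset.filter_false_of_mem, Finset.sum_empty]
    intro q _ hq
    apply hno
    refine ⟨rp q, fun y hy => ?_⟩
    have h1 := hq ⟨y, hy⟩
    have h2 : (⟨y, hy⟩ : E) • q = QuotientGroup.mk (y * rp q) := by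
      conv_lhs => rw [← QuotientGroup.out_eq' q]
      rfl
    rw [h2] at h1
    have h3 : (QuotientGroup.mk (y * rp q) : X ⧸ D) = QuotientGroup.mk (rp q) := by
      rw [h1, QuotientGroup.out_eq']
    rw [eq_comm, QuotientGroup.eq] at h3
    simpa only [mul_assoc] using h3
  · intro y q
    have h2 : y • q = QuotientGroup.mk ((y : X) * rp q) := by
      conv_lhs => rw [← QuotientGroup.out_eq' q]
      rfl
    have h1 : ((y : X) * rp q)⁻¹ * rp (y • q) ∈ D := by
      rw [h2, ← QuotientGroup.eq, QuotientGroup.out_eq']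
    have h3 : rp (y • q) = (y : X) * rp q * (((y : X) * rp q)⁻¹ * rp (y • q)) := by group
    rw [h3, cj_coeff, cj_coeff]
    congr 1
    have h4 : ((y : X) * rp q * (((y : X) * rp q)⁻¹ * rp (y • q)))⁻¹ * z *
        ((y : X) * rp q * (((y : X) * rp q)⁻¹ * rp (y • q))) =
        (((y : X) * rp q)⁻¹ * rp (y • q))⁻¹ * ((rp q)⁻¹ * ((y : X)⁻¹ * z * y) * rp q) *
        (((y : X) * rp q)⁻¹ * rp (y • q)) := by group
    rw [h4, hinv 1 _ h1]
    congr 2
    rw [Subgroup.mem_centralizer_iff] at hz
    rw [mul_assoc (y : X)⁻¹, ← hz y y.2, inv_mul_cancel_left]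

end loc

end Pool.Agent.Helper18.BR
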