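import Pool.Agent.Helper18.BR.Dg

/-!
# Brauer correspondents
-/

set_option autoImplicit false
set_option linter.unusedSectionVars false

open scoped Classical
open MonoidAlgebra

noncomputable section

namespace Pool.Agent.Helper18.BR

variable {Λ : Type} [CommRing Λ] [IsLocalRing Λ]

/-- the normalizer -/
abbrev Nm {X : Type} [Group X] (E : Subgroup X) : Subgroup X := Subgroup.normalizer (E : Set X)

variable {X : Type} [Group X] [Finite X] {T : Subgroup X}

theorem tr_coeff (e : MonoidAlgebra Λ T) (n : X) :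
    (tr e).coeff n = ∑ q : X ⧸ T, (inc T e).coeff ((rp q)⁻¹ * n * rp q) := by
  unfold tr
  rw [coeff_sum, Finset.sum_apply']
  exact Finset.sum_congr rfl fun q _ => cj_coeff _ _ _

theorem mem_cent {E : Subgroup X} {n : X} :
    n ∈ Subgroup.centralizer (E : Set X) ↔ ∀ d ∈ E, d * n = n * d := by
  rw [Subgroup.mem_centralizer_iff]
  rfl

/-- the Brauer correspondent of the sum of the conjugates -/
theorem isCor_tr (p : ℕ) [Fact p.Prime] (hp : ¬ IsUnit (p : Λ)) {E : Subgroup X} (hET : E ≤ T)
    (hE : IsPGroup p E) {e : MonoidAlgebra Λ T} (hc : ∀ y, e * y = y * e)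
    (htr : IsTr (E.subgroupOf T) e) {c : MonoidAlgebra Λ (T.subgroupOf (Nm E))}
    (hcc : ∀ y, c * y = y * c) (hb : IsBlock (tr c))
    (hcomp : ∀ (n : X) (hn : n ∈ T) (hnY : n ∈ Nm E), n ∈ Subgroup.centralizer (E : Set X) →
      rd (e.coeff ⟨n, hn⟩) = rd (c.coeff ⟨⟨n, hnY⟩, hn⟩)) :
    IsCor (tr e) E (tr c) := by
  have := charP_res p hp
  refine ⟨hb, fun n hn => ?_⟩
  rw [← rd_eq]
  have hn' := mem_cent.1 hn
  have hcoe : ∀ t ∈ T, ∀ y : X, (inc T e).coeff (t⁻¹ * y * t) = (inc T e).coeff y := by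
    intro t ht y
    have h1 := cj_inc (⟨t, ht⟩ : T) e
    rw [cj_of_central hc] at h1
    conv_rhs => rw [← h1]
    rw [cj_coeff]
  -- the function on the cosets
  set F : X ⧸ T → IsLocalRing.ResidueField Λ :=
    fun q => rd ((inc T e).coeff ((rp q)⁻¹ * n * rp q)) with hF
  have hFmk : ∀ x : X, F (QuotientGroup.mk x) = rd ((inc T e).coeff (x⁻¹ * n * x)) := by
    intro x
    have h1 : x⁻¹ * rp (QuotientGroup.mk x : X ⧸ T) ∈ T := by
      rw [← QuotientGroup.eq, QuotientGroup.out_eq']
    rw [hF]
    change rd _ = _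
    rw [← hcoe _ h1 (x⁻¹ * n * x)]
    congr 2
    group
  have h1 : rd ((tr e).coeff (n : X)) = ∑ q, F q := by
    rw [tr_coeff, map_sum]
  have h2 : rd ((tr c).coeff n) =
      ∑ r : Nm E ⧸ T.subgroupOf (Nm E), F (QuotientGroup.mk ((rp r : Nm E) : X)) := by
    rw [tr_coeff, map_sum]
    refine Finset.sum_congr rfl fun r _ => ?_
    rw [hFmk, inc_coeff, inc_coeff]
    have h3 : ((((rp r)⁻¹ * n * rp r : Nm E)) : X) =
        ((rp r : Nm E) : X)⁻¹ * n * ((rp r : Nm E) : X) := by push_cast; rfl
    by_cases h : ((rp r : Nm E) : X)⁻¹ * n * ((rp r : Nm E) : X) ∈ T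
    · rw [dif_pos h, dif_pos (show (rp r)⁻¹ * n * rp r ∈ T.subgroupOf (Nm E) by
        rw [Subgroup.mem_subgroupOf, h3]; exact h)]
      symm
      refine (hcomp _ h ((rp r)⁻¹ * n * rp r : Nm E).2 ?_).trans ?_
      · rw [mem_cent]
        intro d hd
        have h4 := (Subgroup.mem_normalizer_iff.1 (rp r : Nm E).2 d).1 hd
        have h5 := hn' _ h4
        calc d * (((rp r : Nm E) : X)⁻¹ * n * ((rp r : Nm E) : X))
            = ((rp r : Nm E) : X)⁻¹ * (((rp r : Nm E) : X) * d * ((rp r : Nm E) : X)⁻¹ * n) *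
              ((rp r : Nm E) : X) := by group
          _ = _ := by
              rw [h5]
              group
      · rfl
    · rw [dif_neg h, dif_neg (show (rp r)⁻¹ * n * rp r ∉ T.subgroupOf (Nm E) by
        rw [Subgroup.mem_subgroupOf, h3]; exact h)]
  rw [h1, h2]
  have hact : ∀ (y : E) (x : X), y • (QuotientGroup.mk x : X ⧸ T) =
      QuotientGroup.mk ((y : X) * x) := fun y x => rfl
  rw [sum_fixed p hE F]
  · symm
    -- the cosets of the elements of the normalizer
    rw [← Finset.sum_image (f := F) (g := fun r : Nm E ⧸ T.subgroupOf (Nm E) =>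
      (QuotientGroup.mk ((rp r : Nm E) : X) : X ⧸ T)) (s := Finset.univ)]
    · symm
      apply Finset.sum_subset
      · intro q hq
        obtain ⟨r, _, rfl⟩ := Finset.mem_image.1 hq
        rw [Finset.mem_filter]
        refine ⟨Finset.mem_univ _, fun y => ?_⟩
        rw [hact, QuotientGroup.eq]
        have h4 := (Subgroup.mem_normalizer_iff''.1 (rp r : Nm E).2 (y : X)⁻¹).1
          (E.inv_mem y.2)
        have h5 := hET h4
        have h6 : ((y : X) * ((rp r : Nm E) : X))⁻¹ * ((rp r : Nm E) : X) =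
            ((rp r : Nm E) : X)⁻¹ * (y : X)⁻¹ * ((rp r : Nm E) : X) := by group
        rw [h6]
        exact h5
      · intro q hq hq'
        by_contra hne
        apply hq'
        rw [Finset.mem_filter] at hq
        obtain ⟨x, rfl⟩ := QuotientGroup.mk_surjective q
        rw [hFmk] at hne
        have hxT : x⁻¹ * n * x ∈ T := by
          by_contra h
          rw [inc_coeff_not _ _ h, map_zero] at hne
          exact hne rfl
        have hfix : ∀ y ∈ E, x⁻¹ * y * x ∈ T := by
          intro y hy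
          have h3 := hq.2 ⟨y, hy⟩
          rw [hact, eq_comm, QuotientGroup.eq] at h3
          simpa only [mul_assoc] using h3
        -- the subgroup `x⁻¹ E x` of `T`
        let Q : Subgroup T := E.comap ((MulAut.conj x).toMonoidHom.comp T.subtype)
        have hQ : ∀ t : T, t ∈ Q ↔ x * (t : X) * x⁻¹ ∈ E := fun t => Iff.rfl
        have hQp : IsPGroup p Q := by
          refine hE.comap_of_injective ((MulAut.conj x).toMonoidHom.comp T.subtype) ?_
          intro a b hab
          have : x * (a : X) * x⁻¹ = x * (b : X) * x⁻¹ := hab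
          exact Subtype.ext (mul_left_cancel (mul_right_cancel this))
        have hQne : BrNe e Q := by
          refine ⟨⟨_, hxT⟩, ?_, ?_⟩
          · rw [mem_cent]
            intro t ht
            ext
            push_cast
            have h3 := hn' _ ((hQ t).1 ht)
            calc (t : X) * (x⁻¹ * n * x) = x⁻¹ * (x * (t : X) * x⁻¹ * n) * x := by group
              _ = x⁻¹ * n * x * t := by
                rw [h3]
                group
          · rw [← rd_ne, ← inc_coeff_mem]
            exact hne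
        obtain ⟨t, ht⟩ := sub_of_brNe p hp htr hQp hQne
        have ht' : ∀ y ∈ E, (t : X)⁻¹ * x⁻¹ * y * ((t : X)⁻¹ * x⁻¹)⁻¹ ∈ E := by
          intro y hy
          have h3 := ht ⟨x⁻¹ * y * x, hfix y hy⟩ (by
            rw [hQ]
            have : x * (x⁻¹ * y * x) * x⁻¹ = y := by group
            change x * (x⁻¹ * y * x) * x⁻¹ ∈ E
            rw [this]
            exact hy)
          rw [Subgroup.mem_subgroupOf] at h3
          have h4 : (t : X)⁻¹ * x⁻¹ * y * ((t : X)⁻¹ * x⁻¹)⁻¹ =
              ((t⁻¹ * ⟨x⁻¹ * y * x, hfix y hy⟩ * t : T) : X) := by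
            push_cast
            group
          rw [h4]
          exact h3
        have hnor : (t : X)⁻¹ * x⁻¹ ∈ Nm E := Subgroup.mem_normalizer_fintype ht'
        have hnor' : x * (t : X) ∈ Nm E := by
          have := (Nm E).inv_mem hnor
          simpa using this
        rw [Finset.mem_image]
        refine ⟨QuotientGroup.mk ⟨_, hnor'⟩, Finset.mem_univ _, ?_⟩
        have h5 : (⟨_, hnor'⟩ : Nm E)⁻¹ * rp (QuotientGroup.mk (⟨_, hnor'⟩ : Nm E) :
            Nm E ⧸ T.subgroupOf (Nm E)) ∈ T.subgroupOf (Nm E) := by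
          rw [← QuotientGroup.eq, QuotientGroup.out_eq']
        rw [Subgroup.mem_subgroupOf] at h5
        symm
        rw [QuotientGroup.eq]
        have h6 : x⁻¹ * ((rp (QuotientGroup.mk (⟨_, hnor'⟩ : Nm E) :
            Nm E ⧸ T.subgroupOf (Nm E)) : Nm E) : X) = (t : X) *
            (((⟨_, hnor'⟩ : Nm E)⁻¹ * rp (QuotientGroup.mk (⟨_, hnor'⟩ : Nm E) :
              Nm E ⧸ T.subgroupOf (Nm E)) : Nm E) : X) := by
          push_cast
          group
        rw [h6]
        exact T.mul_mem t.2 h5
    · intro r _ r' _ h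
      have h0 : (QuotientGroup.mk ((rp r : Nm E) : X) : X ⧸ T) =
        QuotientGroup.mk ((rp r' : Nm E) : X) := h
      rw [QuotientGroup.eq] at h0
      exact rp_inj (T := T.subgroupOf (Nm E)) (by rw [Subgroup.mem_subgroupOf]; exact h0)
  · intro y q
    obtain ⟨x, rfl⟩ := QuotientGroup.mk_surjective q
    rw [hact, hFmk, hFmk]
    congr 2
    have h3 := hn' y y.2
    calc ((y : X) * x)⁻¹ * n * ((y : X) * x) = x⁻¹ * ((y : X)⁻¹ * (n * (y : X))) * x := by group
      _ = x⁻¹ * n * x := by rw [← h3, inv_mul_cancel_left]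

end Pool.Agent.Helper18.BR
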