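import Pool.Agent.Helper18.BR.Defs

/-!
# Bounded derived categories of module categories and equivalences
-/

set_option autoImplicit false

open CategoryTheory

universe v u v' u' w w'

noncomputable section

namespace Pool.Agent.Helper18.BR

section abelian

variable {C : Type u} [Category.{v} C] [Abelian C] [HasDerivedCategory.{w} C]
  {D : Type u'} [Category.{v'} D] [Abelian D] [HasDerivedCategory.{w'} D]

section fn

variable (F : C ⥤ D) [F.Additive] [Limits.PreservesFiniteLimits F]
  [Limits.PreservesFiniteColimits F]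

theorem bounded_map (X : DerivedCategory C) (hX : DerivedCategory.TStructure.t.bounded X) :
    DerivedCategory.TStructure.t.bounded (F.mapDerivedCategory.obj X) := by
  obtain ⟨⟨a, ha⟩, ⟨b, hb⟩⟩ := hX
  constructor
  · obtain ⟨K, hK, ⟨e⟩⟩ := DerivedCategory.exists_iso_Q_obj_of_isGE X a
    refine ⟨a, ⟨(F.mapHomologicalComplex _).obj K,
      F.mapDerivedCategory.mapIso e ≪≫ F.mapDerivedCategoryFactors.app K, ?_⟩⟩
    infer_instance
  · obtain ⟨K, hK, ⟨e⟩⟩ := DerivedCategory.exists_iso_Q_obj_of_isLE X b
    refine ⟨b, ⟨(F.mapHomologicalComplex _).obj K,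
      F.mapDerivedCategory.mapIso e ≪≫ F.mapDerivedCategoryFactors.app K, ?_⟩⟩
    infer_instance

/-- the functor on bounded derived categories -/
def mapBounded : DerivedCategory.Bounded C ⥤ DerivedCategory.Bounded D :=
  (DerivedCategory.TStructure.t (C := D)).bounded.lift
    (DerivedCategory.Bounded.ι ⋙ F.mapDerivedCategory) (fun X => bounded_map F X.1 X.2)

instance : (mapBounded F).CommShift ℤ := by
  unfold mapBounded
  infer_instance

instance : (mapBounded F).IsTriangulated := by
  unfold mapBounded
  infer_instance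

end fn

section eqv

variable (e : C ≌ D)

omit [HasDerivedCategory C] [HasDerivedCategory D] in
theorem localized_eqv [e.functor.Additive] [e.functor.PreservesHomology]
    [e.inverse.Additive] [e.inverse.PreservesHomology] :
    (e.functor.mapHomologicalComplexUpToQuasiIsoLocalizerMorphism
      (ComplexShape.up ℤ)).IsLocalizedEquivalence := by
  refine LocalizerMorphism.isLocalizedEquivalence_of_unit_of_unit _
    (e.inverse.mapHomologicalComplexUpToQuasiIsoLocalizerMorphism (ComplexShape.up ℤ))
    (e.mapHomologicalComplex (ComplexShape.up ℤ)).unit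
    (e.mapHomologicalComplex (ComplexShape.up ℤ)).counitInv (fun X => ?_) (fun X => ?_)
  · have h : IsIso ((e.mapHomologicalComplex (ComplexShape.up ℤ)).unitIso.hom.app X) :=
      inferInstance
    have h1 : QuasiIso ((e.mapHomologicalComplex (ComplexShape.up ℤ)).unitIso.hom.app X) :=
      inferInstance
    exact h1
  · have h : IsIso ((e.mapHomologicalComplex (ComplexShape.up ℤ)).counitIso.inv.app X) :=
      inferInstance
    have h1 : QuasiIso ((e.mapHomologicalComplex (ComplexShape.up ℤ)).counitIso.inv.app X) :=
      inferInstance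
    exact h1

instance mapDC_eqv [e.functor.Additive] : e.functor.mapDerivedCategory.IsEquivalence := by
  have := localized_eqv e
  have : CatCommSq (e.functor.mapHomologicalComplexUpToQuasiIsoLocalizerMorphism
      (ComplexShape.up ℤ)).functor DerivedCategory.Q DerivedCategory.Q
      e.functor.mapDerivedCategory := ⟨e.functor.mapDerivedCategoryFactors.symm⟩
  exact LocalizerMorphism.isEquivalence
    (e.functor.mapHomologicalComplexUpToQuasiIsoLocalizerMorphism (ComplexShape.up ℤ))
    DerivedCategory.Q DerivedCategory.Q e.functor.mapDerivedCategory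

instance mapBounded_full [e.functor.Additive] : (mapBounded e.functor).Full := by
  unfold mapBounded
  infer_instance

instance mapBounded_faithful [e.functor.Additive] : (mapBounded e.functor).Faithful := by
  unfold mapBounded
  infer_instance

instance mapBounded_essSurj [e.functor.Additive] : (mapBounded e.functor).EssSurj where
  mem_essImage := by
    rintro ⟨Y, ⟨⟨a, ha⟩, ⟨b, hb⟩⟩⟩
    obtain ⟨K, h1, h2, ⟨f⟩⟩ := DerivedCategory.exists_iso_Q_obj_of_isGE_of_isLE Y a b
    let K' := (e.inverse.mapHomologicalComplex (ComplexShape.up ℤ)).obj K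
    refine ⟨⟨DerivedCategory.Q.obj K', ⟨a, ?_⟩, ⟨b, ?_⟩⟩, ⟨?_⟩⟩
    · exact ⟨K', Iso.refl _, inferInstance⟩
    · exact ⟨K', Iso.refl _, inferInstance⟩
    · refine (DerivedCategory.TStructure.t (C := D)).bounded.fullyFaithfulι.preimageIso ?_
      exact e.functor.mapDerivedCategoryFactors.app K' ≪≫
        DerivedCategory.Q.mapIso ((e.mapHomologicalComplex (ComplexShape.up ℤ)).counitIso.app K)
          ≪≫ f.symm

instance mapBounded_eqv [e.functor.Additive] : (mapBounded e.functor).IsEquivalence where

end eqv

end abelian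

theorem DbEq.trans {A B C : Type} [Ring A] [Ring B] [Ring C] (h : DbEq A B) (h' : DbEq B C) :
    DbEq A C := by
  obtain ⟨F, i1, i2, i3⟩ := h
  obtain ⟨G, j1, j2, j3⟩ := h'
  exact ⟨F ⋙ G, inferInstance, inferInstance, inferInstance⟩

theorem DbEq.of_eqv {A B : Type} [Ring A] [Ring B] (e : ModuleCat.{0} A ≌ ModuleCat.{0} B)
    [e.functor.Additive] : DbEq A B :=
  ⟨mapBounded e.functor, inferInstance, inferInstance, inferInstance⟩

theorem DbEq.of_morita {Λ A B : Type} [CommRing Λ] [Ring A] [Algebra Λ A] [Ring B] [Algebra Λ B]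
    (h : IsMoritaEquivalent Λ A B) : DbEq A B := by
  obtain ⟨⟨e⟩⟩ := h
  exact DbEq.of_eqv e.eqv

end Pool.Agent.Helper18.BR
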