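import Mathlib

/-!
# Broué's abelian defect group conjecture: the definitions

`Λ` is a commutative ring, in the application a local ring in which the prime `p` is not invertible.
-/

set_option autoImplicit false

open scoped Classical
open MonoidAlgebra CategoryTheory

noncomputable section

namespace Pool.Agent.Helper18.BR

/-! ### blocks -/

/-- `e` is a primitive idempotent of the centre of the ring `A`. -/
def IsBlock {A : Type} [Ring A] (e : A) : Prop :=
  e ≠ 0 ∧ e * e = e ∧ (∀ x, e * x = x * e) ∧
    ∀ f, f * f = f → (∀ x, f * x = x * f) → e * f = f → f = 0 ∨ f = e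

/-- The `Λ`-algebra `B` is isomorphic to the algebra `A e` (`e` a central idempotent): there is a
surjective homomorphism from `A` to `B` with kernel `{x | e x = 0}`. -/
def IsAlg (Λ : Type) [CommRing Λ] {A : Type} [Ring A] [Algebra Λ A] (e : A) (B : Type) [Ring B]
    [Algebra Λ B] : Prop :=
  ∃ π : A →ₐ[Λ] B, Function.Surjective π ∧ ∀ x, π x = 0 ↔ e * x = 0

section grp

variable {Λ : Type} [CommRing Λ] {X : Type} [Group X] [Finite X]

/-- the conjugate `x a x⁻¹` -/
def cj (x : X) (a : MonoidAlgebra Λ X) : MonoidAlgebra Λ X := single x 1 * a * single x⁻¹ 1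

instance instFtQ {T : Subgroup X} : Fintype (X ⧸ T) := Fintype.ofFinite _

/-- the representative of the coset `q` -/
abbrev rp {T : Subgroup X} (q : X ⧸ T) : X := q.out

/-- The Brauer homomorphism of `D` does not vanish at the central element `e`: some element of the
centralizer of `D` has a coefficient in `e` which is a unit of the local ring `Λ`. -/
def BrNe (e : MonoidAlgebra Λ X) (D : Subgroup X) : Prop :=
  ∃ z ∈ Subgroup.centralizer (D : Set X), IsUnit (e.coeff z)

/-- `e` is a relative trace from `D`: the sum of the conjugates of a `D`-fixed element over the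
cosets of `D`. -/
def IsTr (D : Subgroup X) (e : MonoidAlgebra Λ X) : Prop :=
  ∃ a : MonoidAlgebra Λ X, (∀ d ∈ D, cj d a = a) ∧ e = ∑ q : X ⧸ D, cj (rp q) a

/-- `D` is a defect group of the block `e`: `D` is a `p`-group, the Brauer homomorphism of `D` does
not vanish at `e`, and `e` is a relative trace from `D`. -/
def IsDefect (p : ℕ) (e : MonoidAlgebra Λ X) (D : Subgroup X) : Prop :=
  IsPGroup p D ∧ BrNe e D ∧ IsTr D e

/-- `c` is a block of `Λ N_X(D)` with the same image under the Brauer homomorphism of `D` as `e`:
on the centralizer of `D` the coefficients of `c` and `e` are congruent modulo the maximal ideal. -/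
def IsCor (e : MonoidAlgebra Λ X) (D : Subgroup X)
    (c : MonoidAlgebra Λ (Subgroup.normalizer (D : Set X))) : Prop :=
  IsBlock c ∧ ∀ n : Subgroup.normalizer (D : Set X), (n : X) ∈ Subgroup.centralizer (D : Set X) →
    ¬ IsUnit (c.coeff n - e.coeff (n : X))

end grp

/-! ### bounded derived categories -/

/-- the derived category of the category of left `A`-modules -/
@[instance_reducible]
instance hasDC (A : Type) [Ring A] : HasDerivedCategory.{1} (ModuleCat.{0} A) :=
  HasDerivedCategory.standard _

/-- The bounded derived category of the category of left `A`-modules. -/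
abbrev Db (A : Type) [Ring A] : Type 1 := DerivedCategory.Bounded (ModuleCat.{0} A)

/-- The bounded derived categories of `A` and `B` are equivalent as triangulated categories. -/
def DbEq (A B : Type) [Ring A] [Ring B] : Prop :=
  ∃ (F : Db A ⥤ Db B) (_ : F.CommShift ℤ), F.IsTriangulated ∧ F.IsEquivalence

/-! ### Broué's statement -/

/-- A relation between `Λ`-algebras. -/
abbrev Rel (Λ : Type) [CommRing Λ] : Type 1 :=
  ∀ (A : Type) [Ring A] [Algebra Λ A] (B : Type) [Ring B] [Algebra Λ B], Prop

/-- The relation is invariant under Morita equivalence of `Λ`-algebras. -/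
def MorInv {Λ : Type} [CommRing Λ] (R : Rel Λ) : Prop :=
  ∀ (A : Type) [Ring A] [Algebra Λ A] (A' : Type) [Ring A'] [Algebra Λ A']
    (B : Type) [Ring B] [Algebra Λ B] (B' : Type) [Ring B'] [Algebra Λ B'],
    IsMoritaEquivalent Λ A A' → IsMoritaEquivalent Λ B B' → R A' B' → R A B

/-- the relation: `A` and `B` have equivalent bounded derived categories -/
def dbRel (Λ : Type) [CommRing Λ] : Rel Λ := fun A _ _ B _ _ => DbEq A B

/-- Broué's statement for the group `X` and the blocks with defect group isomorphic to `P`: for all
blocks `e` with a defect group `D` isomorphic to `P` and Brauer correspondent `c` the block algebras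
of `e` and `c` are related by `R`. -/
def Broue {Λ : Type} [CommRing Λ] (p : ℕ) (R : Rel Λ) (P : Type) [Group P] (X : Type) [Group X]
    [Finite X] : Prop :=
  ∀ (e : MonoidAlgebra Λ X) (D : Subgroup X)
    (c : MonoidAlgebra Λ (Subgroup.normalizer (D : Set X))),
    IsBlock e → IsDefect p e D → Nonempty (D ≃* P) → IsCor e D c →
    ∀ (A : Type) [Ring A] [Algebra Λ A] (B : Type) [Ring B] [Algebra Λ B],
      IsAlg Λ e A → IsAlg Λ c B → R A B

/-! ### wreath products -/

/-- The wreath product `S^Ω ⋊ H` of `S` with the permutation group `H` on `Ω`; `H` acts on the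
functions by `(h f)(w) = f (h⁻¹ w)`. -/
abbrev Wr (S H Ω : Type) [Group S] [Group H] [MulAction H Ω] : Type :=
  (Ω → S) ⋊[(mulAutArrow : H →* MulAut (Ω → S))] H

instance finWr (S H Ω : Type) [Group S] [Group H] [MulAction H Ω] [Finite S] [Finite H]
    [Finite Ω] : Finite (Wr S H Ω) :=
  Finite.of_equiv _ (SemidirectProduct.equivProd).symm

/-- There is a surjective homomorphism `τ` from `ΛS` onto a matrix algebra over `Λ` (a representation
of `S` over `Λ` which is absolutely irreducible modulo the maximal ideal), with `∑ τ(s) = 0` (i.e. the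
representation is not the trivial one). -/
def Good (Λ S : Type) [CommRing Λ] [Group S] : Prop :=
  ∃ (m : Type) (_ : Fintype m) (_ : DecidableEq m) (_ : Nonempty m)
    (τ : MonoidAlgebra Λ S →ₐ[Λ] Matrix m m Λ),
    Function.Surjective τ ∧ ∑ᶠ s : S, τ (single s 1) = 0

/-- For every abelian group `P` and every infinite set `N` of natural numbers: Broué's conjecture
over `Λ` for the blocks of all finite groups with defect group isomorphic to `P` is equivalent to
Broué's conjecture for the blocks with defect group isomorphic to `P` of the wreath products of `S`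
with the alternating groups of degree `n ∈ N`, in all their transitive permutation actions. -/
def AltSuffice (p : ℕ) (Λ : Type) [CommRing Λ] (S : Type) [Group S] [Finite S] : Prop :=
  ∀ (P : Type) [CommGroup P] (N : Set ℕ), N.Infinite →
    ((∀ (X : Type) [Group X] [Finite X], Broue p (dbRel Λ) P X) ↔
      ∀ n ∈ N, ∀ Γ : Subgroup (alternatingGroup (Fin n)),
        Broue p (dbRel Λ) P (Wr S (alternatingGroup (Fin n)) (alternatingGroup (Fin n) ⧸ Γ)))

end Pool.Agent.Helper18.BR
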