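import Pool.Agent.Helper18.BR.Lft

/-!
# Defect groups and Brauer correspondents of the lifted blocks
-/

set_option autoImplicit false
set_option linter.unusedSectionVars false

open scoped Classical
open MonoidAlgebra

noncomputable section

namespace Pool.Agent.Helper18.BR

variable {Λ : Type} [CommRing Λ]

section trace

variable {T S G : Type} [Group T] [Finite T] [Group S] [Finite S] [Group G] [Finite G]
  {m : Type} [Fintype m] [Nonempty m] (M : MatBlock Λ S m)

/-- `E ≤ T` corresponds to the subgroup `1 × D` of `S × G` -/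
structure Match (κ : T →* S × G) (E : Subgroup T) (D : Subgroup G) : Prop where
  fst : ∀ x ∈ E, (κ x).1 = 1
  snd : ∀ x ∈ E, (κ x).2 ∈ D
  ex : ∀ d ∈ D, ∃ x ∈ E, κ x = (1, d)
  inj : ∀ x ∈ E, κ x = 1 → x = 1

theorem cj_smul {X : Type} [Group X] [Finite X] (x : X) (r : Λ) (a : MonoidAlgebra Λ X) :
    cj x (r • a) = r • cj x a := by
  unfold cj
  rw [mul_smul_comm, smul_mul_assoc]

theorem isTr_lft {u w : Λ} {κ : T →* S × G} (hκ : Function.Surjective κ)
    (hu : u * (Nat.card κ.ker : Λ) = 1) (hw : w * (Nat.card S : Λ) = 1) {E : Subgroup T}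
    {D : Subgroup G} (hM : Match κ E D) {e : MonoidAlgebra Λ G} (he : IsTr D e) :
    IsTr E (lft u κ M.ε e) := by
  obtain ⟨a, ha, rfl⟩ := he
  have : Fintype κ.ker := Fintype.ofFinite _
  have : Fintype S := Fintype.ofFinite _
  have hinv : ∀ d ∈ E, cj d ((u * w) • lft u κ M.ε a) = (u * w) • lft u κ M.ε a := by
    intro d hd
    rw [cj_smul, cj_lft M.central, ha _ (hM.snd d hd)]
  refine ⟨(u * w) • lft u κ M.ε a, hinv, ?_⟩
  choose σ hσ using hκ
  have hbij : Function.Bijective fun i : κ.ker × S × (G ⧸ D) =>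
      (QuotientGroup.mk ((i.1 : T) * σ (i.2.1, rp i.2.2)) : T ⧸ E) := by
    constructor
    · rintro ⟨n, s, q⟩ ⟨n', s', q'⟩ h
      have h0 : (QuotientGroup.mk ((n : T) * σ (s, rp q)) : T ⧸ E) =
        QuotientGroup.mk ((n' : T) * σ (s', rp q')) := h
      rw [QuotientGroup.eq] at h0
      have hn := MonoidHom.mem_ker.1 n.2
      have hn' := MonoidHom.mem_ker.1 n'.2
      have h1 : κ (((n : T) * σ (s, rp q))⁻¹ * ((n' : T) * σ (s', rp q'))) =
          (s⁻¹ * s', (rp q)⁻¹ * rp q') := by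
        rw [map_mul, map_inv, map_mul, map_mul, hn, hn', hσ, hσ, one_mul, one_mul]
        rfl
      have h2 := hM.fst _ h0
      have h3 := hM.snd _ h0
      rw [h1] at h2 h3
      have h4 : s = s' := inv_mul_eq_one.1 h2
      have h5 : q = q' := rp_inj h3
      subst h4
      subst h5
      have h6 := hM.inj _ h0 (by rw [h1, inv_mul_cancel, inv_mul_cancel]; rfl)
      rw [inv_mul_eq_one] at h6
      have h7 : n = n' := Subtype.ext (mul_right_cancel h6)
      rw [h7]
    · intro r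
      obtain ⟨t, rfl⟩ := QuotientGroup.mk_surjective r
      have h1 : (rp (QuotientGroup.mk (κ t).2 : G ⧸ D))⁻¹ * (κ t).2 ∈ D := by
        rw [← QuotientGroup.eq, QuotientGroup.out_eq']
      obtain ⟨d, hd, hd2⟩ := hM.ex _ h1
      have h2 : t * d⁻¹ * (σ ((κ t).1, rp (QuotientGroup.mk (κ t).2 : G ⧸ D)))⁻¹ ∈ κ.ker := by
        rw [MonoidHom.mem_ker, map_mul, map_mul, map_inv, map_inv, hσ, hd2]
        ext
        · simp
        · simp
      refine ⟨(⟨_, h2⟩, (κ t).1, QuotientGroup.mk (κ t).2), ?_⟩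
      change (QuotientGroup.mk (t * d⁻¹ * (σ ((κ t).1, rp (QuotientGroup.mk (κ t).2 : G ⧸ D)))⁻¹ *
        σ ((κ t).1, rp (QuotientGroup.mk (κ t).2 : G ⧸ D))) : T ⧸ E) = QuotientGroup.mk t
      rw [inv_mul_cancel_right, QuotientGroup.eq]
      simpa using hd
  rw [sum_cosets E _ hbij (fun x => cj x ((u * w) • lft u κ M.ε a)) (fun x d hd => by
    rw [cj_mul, hinv d hd])]
  have h1 : ∀ i : κ.ker × S × (G ⧸ D),
      cj ((i.1 : T) * σ (i.2.1, rp i.2.2)) ((u * w) • lft u κ M.ε a) =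
        (u * w) • lft u κ M.ε (cj (rp i.2.2) a) := by
    rintro ⟨n, s, q⟩
    have hn := MonoidHom.mem_ker.1 n.2
    rw [cj_smul, cj_lft M.central, map_mul, hn, hσ, one_mul]
  rw [Finset.sum_congr rfl fun i _ => h1 i, Fintype.sum_prod_type, lft_sum]
  simp only [Fintype.sum_prod_type, Finset.sum_const, Finset.card_univ]
  rw [← Finset.smul_sum, ← Nat.cast_smul_eq_nsmul Λ, ← Nat.cast_smul_eq_nsmul Λ, smul_smul,
    smul_smul, ← Nat.card_eq_fintype_card, ← Nat.card_eq_fintype_card]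
  have h2 : (Nat.card κ.ker : Λ) * (Nat.card S : Λ) * (u * w) = 1 := by
    calc (Nat.card κ.ker : Λ) * (Nat.card S : Λ) * (u * w)
        = (u * (Nat.card κ.ker : Λ)) * (w * (Nat.card S : Λ)) := by ring
      _ = 1 := by rw [hu, hw, one_mul]
  rw [h2, one_smul]

end trace

section trans

variable {X : Type} [Group X] [Finite X] {T : Subgroup X}

theorem isTr_tr {E : Subgroup X} (hET : E ≤ T) {e : MonoidAlgebra Λ T}
    (he : IsTr (E.subgroupOf T) e) : IsTr E (tr e) := by
  obtain ⟨a, ha, rfl⟩ := he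
  have hinv : ∀ d ∈ E, cj d (inc T a) = inc T a := by
    intro d hd
    have h := cj_inc (⟨d, hET hd⟩ : T) a
    rw [ha _ (by rw [Subgroup.mem_subgroupOf]; exact hd)] at h
    exact h
  refine ⟨inc T a, hinv, ?_⟩
  have hbij : Function.Bijective fun i : (X ⧸ T) × (T ⧸ E.subgroupOf T) =>
      (QuotientGroup.mk (rp i.1 * ((rp i.2 : T) : X)) : X ⧸ E) := by
    constructor
    · rintro ⟨q, r⟩ ⟨q', r'⟩ h
      have h0 : (QuotientGroup.mk (rp q * ((rp r : T) : X)) : X ⧸ E) =
        QuotientGroup.mk (rp q' * ((rp r' : T) : X)) := h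
      rw [QuotientGroup.eq] at h0
      have h1 : (rp q)⁻¹ * rp q' ∈ T := by
        have h2 := T.mul_mem (T.mul_mem (rp r).2 (hET h0)) (T.inv_mem (rp r').2)
        have h3 : ((rp r : T) : X) * ((rp q * ((rp r : T) : X))⁻¹ * (rp q' * ((rp r' : T) : X))) *
            ((rp r' : T) : X)⁻¹ =
            (rp q)⁻¹ * rp q' := by group
        rwa [h3] at h2
      have h4 := rp_inj h1
      subst h4
      have h5 : (rp r)⁻¹ * rp r' ∈ E.subgroupOf T := by
        rw [Subgroup.mem_subgroupOf]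
        have h6 : (rp q * ((rp r : T) : X))⁻¹ * (rp q * ((rp r' : T) : X)) =
          (((rp r)⁻¹ * rp r' : T) : X) := by
          push_cast
          group
        rwa [h6] at h0
      have h7 := rp_inj h5
      rw [h7]
    · intro x
      obtain ⟨x, rfl⟩ := QuotientGroup.mk_surjective x
      have h1 : (rp (QuotientGroup.mk x : X ⧸ T))⁻¹ * x ∈ T := by
        rw [← QuotientGroup.eq, QuotientGroup.out_eq']
      have h2 : (rp (QuotientGroup.mk ⟨_, h1⟩ : T ⧸ E.subgroupOf T))⁻¹ * ⟨_, h1⟩ ∈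
          E.subgroupOf T := by
        rw [← QuotientGroup.eq, QuotientGroup.out_eq']
      refine ⟨(QuotientGroup.mk x, QuotientGroup.mk ⟨_, h1⟩), ?_⟩
      change (QuotientGroup.mk _ : X ⧸ E) = QuotientGroup.mk x
      rw [QuotientGroup.eq]
      rw [Subgroup.mem_subgroupOf] at h2
      have h3 : (rp (QuotientGroup.mk x : X ⧸ T) *
          ((rp (QuotientGroup.mk ⟨_, h1⟩ : T ⧸ E.subgroupOf T) : T) : X))⁻¹ * x =
          (((rp (QuotientGroup.mk ⟨_, h1⟩ : T ⧸ E.subgroupOf T))⁻¹ * ⟨_, h1⟩ : T) : X) := by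
        push_cast
        group
      rw [h3]
      exact h2
  rw [sum_cosets E _ hbij (fun x => cj x (inc T a)) (fun x d hd => by rw [cj_mul, hinv d hd]),
    Fintype.sum_prod_type]
  unfold tr
  refine Finset.sum_congr rfl fun q _ => ?_
  rw [map_sum, cj_sum]
  refine Finset.sum_congr rfl fun r _ => ?_
  rw [cj_mul, cj_inc]

end trans

section ne

variable [IsLocalRing Λ] {X : Type} [Group X] [Finite X] {T : Subgroup X}

/-- the action by conjugation -/
@[reducible] def cjAct (E : Subgroup X) : MulAction E X where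
  smul d x := (d : X) * x * (d : X)⁻¹
  one_smul x := by
    change ((1 : E) : X) * x * ((1 : E) : X)⁻¹ = x
    simp
  mul_smul d d' x := by
    change ((d * d' : E) : X) * x * ((d * d' : E) : X)⁻¹ =
      (d : X) * ((d' : X) * x * (d' : X)⁻¹) * (d : X)⁻¹
    push_cast
    group

/-- if the Brauer homomorphism of `E` does not vanish at `e` then it does not vanish at the sum of
the conjugates -/
theorem brNe_tr (p : ℕ) [Fact p.Prime] (hp : ¬ IsUnit (p : Λ)) {E : Subgroup X} (hET : E ≤ T)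
    (hE : IsPGroup p E) {e : MonoidAlgebra Λ T} (hc : ∀ y, e * y = y * e) (he : e * e = e)
    (ho : Orth e) (h : BrNe e (E.subgroupOf T)) : BrNe (tr e) E := by
  have := charP_res p hp
  have : Fintype X := Fintype.ofFinite _
  obtain ⟨z, hz, hu⟩ := h
  by_contra hno
  have hno' : ∀ y ∈ Subgroup.centralizer (E : Set X), rd ((tr e).coeff y) = 0 := by
    intro y hy
    by_contra h
    exact hno ⟨y, hy, rd_ne.1 h⟩
  have hz' : ∀ d ∈ E, d * (z : X) = z * d := by
    intro d hd
    rw [Subgroup.mem_centralizer_iff] at hz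
    have h1 := hz ⟨d, hET hd⟩ (by rw [SetLike.mem_coe, Subgroup.mem_subgroupOf]; exact hd)
    exact congrArg Subtype.val h1
  rw [← rd_ne, ← inc_coeff_mem, ← inc_mul_tr hc he ho, coeff_mul_sum, map_sum] at hu
  apply hu
  have hcoe : ∀ d ∈ E, ∀ y : X, (inc T e).coeff (d * y * d⁻¹) = (inc T e).coeff y := by
    intro d hd y
    have h1 := cj_inc (⟨d⁻¹, hET (E.inv_mem hd)⟩ : T) e
    rw [cj_of_central hc] at h1
    conv_rhs => rw [← h1]
    rw [cj_coeff]
    simp
  have hcoe2 : ∀ d ∈ E, ∀ y : X, (tr e).coeff (d * y * d⁻¹) = (tr e).coeff y := by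
    intro d _ y
    conv_rhs => rw [← cj_tr hc d⁻¹]
    rw [cj_coeff]
    simp
  let _ := cjAct E
  rw [sum_fixed p hE]
  · refine Finset.sum_eq_zero fun y hy => ?_
    rw [map_mul]
    rw [hno' (y⁻¹ * z) ?_, mul_zero]
    rw [Subgroup.mem_centralizer_iff]
    intro d hd
    rw [Finset.mem_filter] at hy
    have h1 : d * y * d⁻¹ = y := hy.2 ⟨d, hd⟩
    have h2 : d * y = y * d := mul_inv_eq_iff_eq_mul.1 h1
    have h3 : d * y⁻¹ = y⁻¹ * d := by
      rw [eq_inv_mul_iff_mul_eq, ← mul_assoc, ← h2, mul_inv_cancel_right]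
    rw [← mul_assoc, h3, mul_assoc, hz' d hd, mul_assoc]
  · intro d y
    change rd ((inc T e).coeff ((d : X) * y * (d : X)⁻¹) *
      (tr e).coeff (((d : X) * y * (d : X)⁻¹)⁻¹ * z)) = _
    rw [hcoe d d.2]
    have h1 : ((d : X) * y * (d : X)⁻¹)⁻¹ * z = (d : X) * (y⁻¹ * z) * (d : X)⁻¹ := by
      have h2 := hz' d d.2
      calc ((d : X) * y * (d : X)⁻¹)⁻¹ * z = (d : X) * y⁻¹ * ((d : X)⁻¹ * z) := by group
        _ = (d : X) * y⁻¹ * (z * (d : X)⁻¹) := by
            congr 1
            rw [eq_mul_inv_iff_mul_eq, mul_assoc, ← h2, inv_mul_cancel_left]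
        _ = _ := by group
    rw [h1, hcoe2 d d.2]

variable {S G : Type} [Group S] [Finite S] [Group G] [Finite G] {m : Type} [Fintype m] [Nonempty m]
  (M : MatBlock Λ S m)

omit [IsLocalRing Λ] in
theorem brNe_lft [IsLocalRing Λ] {κ : T →* S × G} {u : Λ} (hu : IsUnit u) {E : Subgroup T}
    {D : Subgroup G}
    (hC : ∀ s, ∀ g ∈ Subgroup.centralizer (D : Set G),
      ∃ t ∈ Subgroup.centralizer (E : Set T), κ t = (s, g))
    {e : MonoidAlgebra Λ G} (h : BrNe e D) : BrNe (lft u κ M.ε e) E := by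
  obtain ⟨g, hg, h1⟩ := h
  obtain ⟨s, hs⟩ := M.exists_unit
  obtain ⟨t, ht, h2⟩ := hC s g hg
  refine ⟨t, ht, ?_⟩
  rw [lft_coeff, h2]
  exact hu.mul (hs.mul h1)

end ne

end Pool.Agent.Helper18.BR
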