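import Mathlib

/-!
# Finite groups embed into alternating groups
-/

set_option autoImplicit false

open scoped Classical

noncomputable section

namespace Pool.Agent.Helper18.BR

theorem exists_alt (G : Type) [Group G] [Finite G] (n : ℕ) (hn : 2 * Nat.card G ≤ n) :
    ∃ i : G →* alternatingGroup (Fin n), Function.Injective i := by
  have : Fintype G := Fintype.ofFinite G
  obtain ⟨j⟩ : Nonempty (G ⊕ G ↪ Fin n) := Function.Embedding.nonempty_of_card_le (by
    rw [Fintype.card_sum, Fintype.card_fin, ← two_mul, ← Nat.card_eq_fintype_card]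
    exact hn)
  let f : G ⊕ G ≃ {x : Fin n // x ∈ Set.range j} := Equiv.ofInjective j j.injective
  let φ : G →* Equiv.Perm (G ⊕ G) := (Equiv.Perm.sumCongrHom G G).comp
    ((MulAction.toPermHom G G).prod (MulAction.toPermHom G G))
  let ψ : G →* Equiv.Perm (Fin n) := (Equiv.Perm.extendDomainHom f).comp φ
  have hψ : ∀ g, Equiv.Perm.sign (ψ g) = 1 := by
    intro g
    change Equiv.Perm.sign (Equiv.Perm.extendDomain (φ g) f) = 1
    rw [Equiv.Perm.sign_extendDomain]
    change Equiv.Perm.sign (Equiv.Perm.sumCongr (MulAction.toPermHom G G g)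
      (MulAction.toPermHom G G g)) = 1
    rw [Equiv.Perm.sign_sumCongr, Int.units_mul_self]
  have hinj : Function.Injective ψ := by
    refine (Equiv.Perm.extendDomainHom_injective f).comp ?_
    refine Equiv.Perm.sumCongrHom_injective.comp ?_
    intro g g' h
    have h1 := congrArg Prod.fst h
    exact MulAction.toPerm_injective h1
  refine ⟨ψ.codRestrict (alternatingGroup (Fin n)) fun g => Equiv.Perm.mem_alternatingGroup.2 (hψ g), ?_⟩
  intro g g' h
  exact hinj (congrArg Subtype.val h)

end Pool.Agent.Helper18.BR
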