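import Pool.Agent.Helper18.BR.Two
import Pool.Agent.Helper18.BR.Emb
import Pool.Agent.Helper18.BR.Db

/-!
# Broué's statement for groups and for wreath products
-/

set_option autoImplicit false
set_option linter.unusedSectionVars false

open scoped Classical
open MonoidAlgebra

noncomputable section

namespace Pool.Agent.Helper18.BR

theorem morInv_db (Λ : Type) [CommRing Λ] : MorInv (dbRel Λ) := by
  intro A _ _ A' _ _ B _ _ B' _ _ h1 h2 h
  exact ((DbEq.of_morita h1).trans h).trans (DbEq.of_morita h2.symm)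

theorem morita_mat {Λ A m n : Type} [CommRing Λ] [Ring A] [Algebra Λ A] [Fintype m]
    [DecidableEq m] [Nonempty m] [Fintype n] [DecidableEq n] [Nonempty n] :
    IsMoritaEquivalent Λ A (Matrix n n (Matrix m m A)) := by
  have h1 : IsMoritaEquivalent Λ A (Matrix m m A) := IsMoritaEquivalent.matrix A Λ
  have h2 : IsMoritaEquivalent Λ (Matrix m m A) (Matrix n n (Matrix m m A)) :=
    IsMoritaEquivalent.matrix (Matrix m m A) Λ
  exact IsMoritaEquivalent.trans Λ h1 h2

theorem ee_equiv {S G H : Type} [Group S] [Group G] [Group H] {i : G →* H}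
    (hi : Function.Injective i) (D : Subgroup G) : Nonempty (EE S i D ≃* D) := by
  have h : Function.Injective ((SemidirectProduct.inr : H →* WX S i).comp i) :=
    SemidirectProduct.inr_injective.comp hi
  exact ⟨(D.equivMapOfInjective _ h).symm⟩

/-- the local statement -/
theorem broue_of_wr (p : ℕ) [Fact p.Prime] {Λ : Type} [CommRing Λ] [IsLocalRing Λ]
    (hp : ¬ IsUnit (p : Λ)) (R : Rel Λ) (hR : MorInv R) (S : Type) [Group S] [Finite S]
    (hS : IsUnit (Nat.card S : Λ)) {m : Type} [Fintype m] [Nonempty m] (M : MatBlock Λ S m)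
    (P : Type) [Group P] (G : Type) [Group G] [Finite G] (H : Type) [Group H] [Finite H]
    (i : G →* H) (hi : Function.Injective i) (h : Broue (Λ := Λ) p R P (WX S i)) :
    Broue (Λ := Λ) p R P G := by
  intro e D c he hD hP hc A _ _ B _ _ hA hB
  obtain ⟨w, hw⟩ := hS.exists_left_inv
  obtain ⟨e', c', h1, h2, h3, h4, h5⟩ := transfer hi M p hp hw he hD hc
  obtain ⟨f⟩ := hP
  obtain ⟨g⟩ := ee_equiv (S := S) hi D
  have h6 := h e' (EE S i D) c' h1 h2 ⟨g.trans f⟩ h3 _ _ (h4 A hA) (h5 B hB)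
  exact hR _ _ _ _ morita_mat morita_mat h6

theorem Good.exists_matBlock {Λ S : Type} [CommRing Λ] [Group S] [Finite S] (h : Good Λ S)
    (hS : IsUnit (Nat.card S : Λ)) :
    ∃ (m : Type) (_ : Fintype m) (_ : Nonempty m), Nonempty (MatBlock Λ S m) := by
  obtain ⟨m, i1, i3, i2, τ, h1, h2⟩ := h
  obtain ⟨w, hw⟩ := hS.exists_left_inv
  exact ⟨m, i1, i2, BR.exists_matBlock' hw τ h1 h2⟩

/-- linear characters -/
theorem good_chi {Λ S : Type} [CommRing Λ] [Group S] [Finite S] (χ : S →* Λ)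
    (h : ∑ᶠ s, χ s = 0) : Good Λ S := by
  have : Fintype S := Fintype.ofFinite S
  let τ : MonoidAlgebra Λ S →ₐ[Λ] Matrix Unit Unit Λ :=
    MonoidAlgebra.lift Λ _ S ((algebraMap Λ (Matrix Unit Unit Λ) : Λ →* Matrix Unit Unit Λ).comp χ)
  have hτ : ∀ (s : S) (r : Λ), τ (single s r) = algebraMap Λ _ (r * χ s) := by
    intro s r
    change MonoidAlgebra.lift Λ _ S _ (single s r) = _
    rw [MonoidAlgebra.lift_single, map_mul, ← Algebra.smul_def]
    rfl
  refine ⟨Unit, _, _, inferInstance, τ, fun a => ⟨single 1 (a () ()), ?_⟩, ?_⟩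
  · rw [hτ, map_one, mul_one]
    ext x y
    rw [Matrix.algebraMap_matrix_apply, if_pos (Subsingleton.elim _ _)]
    rfl
  · rw [finsum_eq_sum_of_fintype] at h ⊢
    have h1 : ∀ s : S, τ (single s 1) = algebraMap Λ _ (χ s) := by
      intro s
      rw [hτ, one_mul]
    rw [Finset.sum_congr rfl fun s _ => h1 s, ← map_sum, h, map_zero]

/-- cyclic groups -/
theorem good_cyclic {Λ : Type} [CommRing Λ] (r : ℕ) [NeZero r] (ζ : Λ)
    (h1 : ζ ^ r = 1) (h2 : ∑ i ∈ Finset.range r, ζ ^ i = 0) : Good Λ (Multiplicative (ZMod r)) := by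
  obtain ⟨k, rfl⟩ : ∃ k, r = k + 1 := ⟨r - 1, by have := NeZero.pos r; omega⟩
  have hval : ∀ x y : ZMod (k + 1), ζ ^ (x + y).val = ζ ^ x.val * ζ ^ y.val := by
    intro x y
    rw [ZMod.val_add, ← pow_add, ← pow_eq_pow_mod _ h1]
  let χ : Multiplicative (ZMod (k + 1)) →* Λ :=
    { toFun := fun x => ζ ^ (Multiplicative.toAdd x).val
      map_one' := by
        change ζ ^ (0 : ZMod (k + 1)).val = 1
        rw [ZMod.val_zero, pow_zero]
      map_mul' := fun x y => hval _ _ }
  have : Fintype (Multiplicative (ZMod (k + 1))) := Fintype.ofFinite _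
  refine good_chi χ ?_
  rw [finsum_eq_sum_of_fintype]
  have h3 : ∑ s : Multiplicative (ZMod (k + 1)), χ s = ∑ i : Fin (k + 1), ζ ^ (i : ℕ) :=
    Fintype.sum_equiv Multiplicative.toAdd _ _ fun s => rfl
  rw [h3, Fin.sum_univ_eq_sum_range, h2]

/-- doubly transitive groups -/
theorem good_two {Λ : Type} [CommRing Λ] {S : Type} [Group S] [Finite S] {Ω : Type} [Finite Ω]
    [Nontrivial Ω] [MulAction S Ω]
    (h2 : ∀ a b c d : Ω, a ≠ b → c ≠ d → ∃ g : S, g • a = c ∧ g • b = d)
    (hu : IsUnit (Nat.card S : Λ)) : Good Λ S := by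
  obtain ⟨m, i1, i2, ⟨M⟩⟩ := matBlock_two (Λ := Λ) h2 hu
  refine ⟨m, i1, _, i2, M.τ, M.surj, ?_⟩
  have : Fintype S := Fintype.ofFinite S
  rw [finsum_eq_sum_of_fintype]
  have h1 : ∑ s : S, M.τ (single s 1) = M.τ (M.ε * ∑ s : S, single s 1) := by
    rw [map_mul, IsAlg.one M.idem M.ker, one_mul, map_sum]
  have h3 : M.ε * ∑ s : S, single s 1 = 0 := by
    ext x
    rw [coeff_mul_sum]
    have h7 : ∀ y : S, (∑ s : S, (single s 1 : MonoidAlgebra Λ S)).coeff (y⁻¹ * x) = 1 := by
      intro y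
      rw [coeff_sum, Finset.sum_apply', Finset.sum_eq_single (y⁻¹ * x)]
      · rw [coeff_single, Finsupp.single_eq_same]
      · intro b _ hb
        rw [coeff_single, Finsupp.single_apply, if_neg hb]
      · intro h
        exact absurd (Finset.mem_univ _) h
    rw [Finset.sum_congr rfl fun y _ => by rw [h7 y, mul_one]]
    have h8 := M.aug
    rw [finsum_eq_sum_of_fintype] at h8
    exact h8
  rw [h1, h3, map_zero]

end Pool.Agent.Helper18.BR
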