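import Pool.Agent.Helper18.BR.Ring

/-!
# Blocks and stabilizers (Fong–Reynolds in terms of idempotents)

`T` is a subgroup of the finite group `X` and `e` a central idempotent of `ΛT` with `e x e = 0` for
`x ∈ X \ T`. Then the sum `E` of the conjugates of `e` is a central idempotent of `ΛX`, and
`ΛX E` is isomorphic to the matrix algebra of degree `|X : T|` over `ΛT e`.
-/

set_option autoImplicit false
set_option linter.unusedSectionVars false

open scoped Classical
open MonoidAlgebra

noncomputable section

namespace Pool.Agent.Helper18.BR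

variable {Λ : Type} [CommRing Λ]

section basic

variable {X : Type} [Group X] [Finite X]

/-- the element of the group ring with the coefficients `f` -/
def mk (f : X → Λ) : MonoidAlgebra Λ X := .ofCoeff (Finsupp.equivFunOnFinite.symm f)

@[simp] theorem mk_coeff (f : X → Λ) (x : X) : (mk f).coeff x = f x := rfl

theorem coeff_mul_sum [Fintype X] (a b : MonoidAlgebra Λ X) (x : X) :
    (a * b).coeff x = ∑ y, a.coeff y * b.coeff (y⁻¹ * x) := by
  rw [coeff_mul_apply_left, Finsupp.sum_fintype]
  intro i
  rw [zero_mul]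

theorem cj_coeff (x : X) (a : MonoidAlgebra Λ X) (z : X) :
    (cj x a).coeff z = a.coeff (x⁻¹ * z * x) := by
  unfold cj
  rw [coeff_mul_single_apply, coeff_single_mul_apply, mul_one, one_mul, inv_inv, mul_assoc]

theorem cj_mul (x y : X) (a : MonoidAlgebra Λ X) : cj (x * y) a = cj x (cj y a) := by
  ext z
  rw [cj_coeff, cj_coeff, cj_coeff]
  congr 1
  group

theorem cj_one (a : MonoidAlgebra Λ X) : cj 1 a = a := by
  ext z
  rw [cj_coeff]
  simp

theorem single_mul_eq (x : X) (a : MonoidAlgebra Λ X) :
    single x 1 * a = cj x a * single x 1 := by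
  unfold cj
  rw [mul_assoc, single_mul_single, inv_mul_cancel, mul_one, ← one_def, mul_one]

theorem cj_hom (x : X) (a b : MonoidAlgebra Λ X) : cj x (a * b) = cj x a * cj x b := by
  unfold cj
  have h : (single x⁻¹ 1 * single x 1 : MonoidAlgebra Λ X) = 1 := by
    rw [single_mul_single, inv_mul_cancel, mul_one, ← one_def]
  calc single x 1 * (a * b) * single x⁻¹ 1
      = single x 1 * a * (1 * b) * single x⁻¹ 1 := by rw [one_mul]; simp only [mul_assoc]
    _ = _ := by rw [← h]; simp only [mul_assoc]

theorem cj_add (x : X) (a b : MonoidAlgebra Λ X) : cj x (a + b) = cj x a + cj x b := by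
  unfold cj
  rw [mul_add, add_mul]

theorem cj_sum {ι : Type} (s : Finset ι) (x : X) (a : ι → MonoidAlgebra Λ X) :
    cj x (∑ i ∈ s, a i) = ∑ i ∈ s, cj x (a i) := by
  unfold cj
  rw [Finset.mul_sum, Finset.sum_mul]

/-- an element is central if it commutes with the group elements -/
theorem central_of_cj {a : MonoidAlgebra Λ X} (h : ∀ x, cj x a = a) (y : MonoidAlgebra Λ X) :
    a * y = y * a := by
  induction y using MonoidAlgebra.induction_linear with
  | zero => rw [mul_zero, zero_mul]
  | add y z hy hz => rw [mul_add, add_mul, hy, hz]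
  | single x r =>
    have h1 : (single x r : MonoidAlgebra Λ X) = r • single x 1 := by
      rw [smul_single, smul_eq_mul, mul_one]
    rw [h1, smul_mul_assoc, mul_smul_comm, single_mul_eq, h x]

theorem cj_of_central {a : MonoidAlgebra Λ X} (h : ∀ y, a * y = y * a) (x : X) : cj x a = a := by
  unfold cj
  rw [← h (single x 1), mul_assoc, single_mul_single, mul_inv_cancel, mul_one, ← one_def, mul_one]

end basic

section sub

variable {X : Type} [Group X] [Finite X] (T : Subgroup X)

/-- the inclusion of the group ring of a subgroup -/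
def inc : MonoidAlgebra Λ T →ₐ[Λ] MonoidAlgebra Λ X :=
  MonoidAlgebra.mapDomainAlgHom Λ Λ T.subtype

theorem inc_single (t : T) (r : Λ) : inc T (single t r) = single (t : X) r :=
  mapDomain_single

theorem inc_coeff (a : MonoidAlgebra Λ T) (x : X) :
    (inc T a).coeff x = if h : x ∈ T then a.coeff ⟨x, h⟩ else 0 := by
  induction a using MonoidAlgebra.induction_linear with
  | zero => simp
  | add y z hy hz =>
    rw [map_add, coeff_add, Finsupp.add_apply, hy, hz]
    split_ifs
    · rw [coeff_add, Finsupp.add_apply]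
    · rw [add_zero]
  | single t r =>
    rw [inc_single, coeff_single, Finsupp.single_apply]
    split_ifs with h1 h2 h2
    · rw [coeff_single, Finsupp.single_apply, if_pos (Subtype.ext h1)]
    · exact absurd (h1 ▸ t.2) h2
    · rw [coeff_single, Finsupp.single_apply, if_neg]
      intro h3
      exact h1 (congrArg Subtype.val h3)
    · rfl

theorem inc_coeff_mem (a : MonoidAlgebra Λ T) (t : T) : (inc T a).coeff (t : X) = a.coeff t := by
  rw [inc_coeff, dif_pos t.2]

theorem inc_coeff_not (a : MonoidAlgebra Λ T) {x : X} (h : x ∉ T) : (inc T a).coeff x = 0 := by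
  rw [inc_coeff, dif_neg h]

theorem inc_inj : Function.Injective (inc (Λ := Λ) T) := by
  intro a b h
  ext t
  rw [← inc_coeff_mem T a t, h, inc_coeff_mem]

/-- the restriction of the coefficients to a subgroup -/
def res (y : MonoidAlgebra Λ X) : MonoidAlgebra Λ T := mk fun t => y.coeff (t : X)

theorem res_coeff (y : MonoidAlgebra Λ X) (t : T) : (res T y).coeff t = y.coeff (t : X) := rfl

theorem res_add (y z : MonoidAlgebra Λ X) : res T (y + z) = res T y + res T z := by
  ext t; rfl

theorem res_zero : res T (0 : MonoidAlgebra Λ X) = 0 := by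
  ext t; rfl

theorem res_smul (r : Λ) (y : MonoidAlgebra Λ X) : res T (r • y) = r • res T y := by
  ext t; rfl

theorem res_inc (a : MonoidAlgebra Λ T) : res T (inc T a) = a := by
  ext t
  rw [res_coeff, inc_coeff_mem]

theorem res_single_mem {x : X} (h : x ∈ T) (r : Λ) : res T (single x r) = single ⟨x, h⟩ r := by
  ext t
  rw [res_coeff, coeff_single, coeff_single, Finsupp.single_apply, Finsupp.single_apply]
  by_cases h1 : x = t
  · rw [if_pos h1, if_pos (Subtype.ext h1)]
  · rw [if_neg h1, if_neg (fun h2 => h1 (congrArg Subtype.val h2))]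

theorem res_single_not {x : X} (h : x ∉ T) (r : Λ) : res T (single x r) = 0 := by
  ext t
  rw [res_coeff, coeff_single, Finsupp.single_apply, if_neg]
  · rfl
  · rintro rfl
    exact h t.2

theorem res_mul_inc (y : MonoidAlgebra Λ X) (a : MonoidAlgebra Λ T) :
    res T (y * inc T a) = res T y * a := by
  induction a using MonoidAlgebra.induction_linear with
  | zero => rw [map_zero, mul_zero, mul_zero, res_zero]
  | add a b ha hb => rw [map_add, mul_add, res_add, ha, hb, mul_add]
  | single t r =>
    ext s
    rw [inc_single, res_coeff, coeff_mul_single_apply, coeff_mul_single_apply, res_coeff]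
    rfl

variable {T}

theorem rp_inj {q r : X ⧸ T} (h : (rp q)⁻¹ * rp r ∈ T) : q = r := by
  rw [← QuotientGroup.eq, QuotientGroup.out_eq', QuotientGroup.out_eq'] at h
  exact h

theorem rp_self (q : X ⧸ T) : (rp q)⁻¹ * rp q ∈ T := by
  rw [inv_mul_cancel]
  exact T.one_mem

/-- the algebra homomorphism induced from a subgroup, on group elements -/
def ind0 {B : Type} [Ring B] [Algebra Λ B] (ψ : MonoidAlgebra Λ T →ₐ[Λ] B) :
    X →* Matrix (X ⧸ T) (X ⧸ T) B where
  toFun x := Matrix.of fun i j => ψ (res T (single ((rp i)⁻¹ * x * rp j) 1))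
  map_one' := by
    ext i j
    rw [Matrix.of_apply, mul_one]
    by_cases h : i = j
    · subst h
      rw [inv_mul_cancel, Matrix.one_apply_eq, res_single_mem T T.one_mem]
      exact map_one ψ
    · rw [Matrix.one_apply_ne h, res_single_not T fun h1 => h (rp_inj h1), map_zero]
  map_mul' x y := by
    ext i j
    rw [Matrix.of_apply, Matrix.mul_apply, Finset.sum_eq_single (QuotientGroup.mk (y * rp j))]
    · have h1 : (rp (QuotientGroup.mk (y * rp j) : X ⧸ T))⁻¹ * (y * rp j) ∈ T := by
        rw [← QuotientGroup.eq, QuotientGroup.out_eq']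
      have h2 : (single ((rp i)⁻¹ * (x * y) * rp j) 1 : MonoidAlgebra Λ X) =
          single ((rp i)⁻¹ * x * rp (QuotientGroup.mk (y * rp j) : X ⧸ T)) 1 *
            inc T (single ⟨_, h1⟩ 1) := by
        rw [inc_single, single_mul_single, mul_one]
        congr 1
        group
      rw [h2, res_mul_inc, map_mul, Matrix.of_apply, Matrix.of_apply]
      congr 2
      rw [← mul_assoc] at h1
      rw [res_single_mem T h1]
      congr 1
      ext
      simp only [mul_assoc]
    · intro k _ hk
      rw [Matrix.of_apply, Matrix.of_apply, res_single_not T (x := (rp k)⁻¹ * y * rp j),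
        map_zero, mul_zero]
      intro h
      apply hk
      rw [mul_assoc, ← QuotientGroup.eq, QuotientGroup.out_eq'] at h
      exact h
    · intro h
      exact absurd (Finset.mem_univ _) h

/-- the algebra homomorphism induced from a subgroup -/
def ind {B : Type} [Ring B] [Algebra Λ B] (ψ : MonoidAlgebra Λ T →ₐ[Λ] B) :
    MonoidAlgebra Λ X →ₐ[Λ] Matrix (X ⧸ T) (X ⧸ T) B :=
  MonoidAlgebra.lift Λ _ X (ind0 ψ)

theorem ind_apply {B : Type} [Ring B] [Algebra Λ B] (ψ : MonoidAlgebra Λ T →ₐ[Λ] B)
    (y : MonoidAlgebra Λ X) (i j : X ⧸ T) :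
    ind ψ y i j = ψ (res T (single (rp i)⁻¹ 1 * y * single (rp j) 1)) := by
  induction y using MonoidAlgebra.induction_linear with
  | zero => rw [map_zero, mul_zero, zero_mul, res_zero, map_zero, Matrix.zero_apply]
  | add y z hy hz =>
    rw [map_add, Matrix.add_apply, hy, hz, mul_add, add_mul, res_add, map_add]
  | single x r =>
    have h1 : (single x r : MonoidAlgebra Λ X) = r • single x 1 := by
      rw [smul_single, smul_eq_mul, mul_one]
    have h2 : ind ψ (single x 1) = ind0 ψ x := by
      unfold ind
      rw [MonoidAlgebra.lift_single, one_smul]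
    rw [h1, map_smul, Matrix.smul_apply, h2, mul_smul_comm, smul_mul_assoc, res_smul, map_smul,
      single_mul_single, single_mul_single, mul_one, mul_one]
    rfl

/-- `e x e = 0` for the elements `x` outside of `T` -/
def Orth (e : MonoidAlgebra Λ T) : Prop :=
  ∀ x : X, x ∉ T → inc T e * single x 1 * inc T e = 0

theorem orth_mid {e : MonoidAlgebra Λ T} (h : Orth e) (z : MonoidAlgebra Λ X) :
    inc T e * z * inc T e = inc T (e * res T z * e) := by
  induction z using MonoidAlgebra.induction_linear with
  | zero => rw [mul_zero, zero_mul, res_zero, mul_zero, zero_mul, map_zero]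
  | add y z hy hz => rw [mul_add, add_mul, hy, hz, res_add, mul_add, add_mul, map_add]
  | single x r =>
    by_cases hx : x ∈ T
    · rw [res_single_mem T hx, map_mul, map_mul, inc_single]
    · have h1 : (single x r : MonoidAlgebra Λ X) = r • single x 1 := by
        rw [smul_single, smul_eq_mul, mul_one]
      rw [res_single_not T hx, mul_zero, zero_mul, map_zero, h1, mul_smul_comm, smul_mul_assoc,
        h x hx, smul_zero]

/-- the sum of the conjugates -/
def tr (e : MonoidAlgebra Λ T) : MonoidAlgebra Λ X := ∑ q : X ⧸ T, cj (rp q) (inc T e)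

theorem cj_inc (t : T) (a : MonoidAlgebra Λ T) : cj (t : X) (inc T a) = inc T (cj t a) := by
  unfold cj
  rw [map_mul, map_mul, inc_single, inc_single]
  rfl

theorem cj_rp_mk {e : MonoidAlgebra Λ T} (hc : ∀ y, e * y = y * e) (x : X) :
    cj (rp (QuotientGroup.mk x : X ⧸ T)) (inc T e) = cj x (inc T e) := by
  have h1 : x⁻¹ * rp (QuotientGroup.mk x : X ⧸ T) ∈ T := by
    rw [← QuotientGroup.eq, QuotientGroup.out_eq']
  have h2 : rp (QuotientGroup.mk x : X ⧸ T) = x * ((⟨_, h1⟩ : T) : X) := by
    simp
  rw [h2, cj_mul, cj_inc, cj_of_central hc]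

theorem cj_tr {e : MonoidAlgebra Λ T} (hc : ∀ y, e * y = y * e) (x : X) :
    cj x (tr e) = tr e := by
  unfold tr
  rw [cj_sum]
  refine Fintype.sum_equiv (MulAction.toPerm x : Equiv.Perm (X ⧸ T)) _ _ fun q => ?_
  rw [← cj_mul, MulAction.toPerm_apply]
  have h : x • q = QuotientGroup.mk (x * rp q) := by
    conv_lhs => rw [← QuotientGroup.out_eq' q]
    rfl
  rw [h, cj_rp_mk hc]

theorem tr_central {e : MonoidAlgebra Λ T} (hc : ∀ y, e * y = y * e)
    (y : MonoidAlgebra Λ X) : tr e * y = y * tr e := central_of_cj (cj_tr hc) y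

theorem inc_mul_cj {e : MonoidAlgebra Λ T} (ho : Orth e) {x : X} (hx : x ∉ T) :
    inc T e * cj x (inc T e) = 0 := by
  unfold cj
  rw [← mul_assoc, ← mul_assoc, ho x hx, zero_mul]

theorem inc_mul_tr {e : MonoidAlgebra Λ T} (hc : ∀ y, e * y = y * e) (he : e * e = e)
    (ho : Orth e) : inc T e * tr e = inc T e := by
  unfold tr
  rw [Finset.mul_sum, Finset.sum_eq_single (QuotientGroup.mk 1)]
  · rw [cj_rp_mk hc, cj_one, ← map_mul, he]
  · intro q _ hq
    apply inc_mul_cj ho
    intro h
    apply hq
    rw [← QuotientGroup.out_eq' q]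
    symm
    rw [QuotientGroup.eq]
    simpa using h
  · intro h
    exact absurd (Finset.mem_univ _) h

theorem tr_mul_tr {e : MonoidAlgebra Λ T} (hc : ∀ y, e * y = y * e) (he : e * e = e)
    (ho : Orth e) : tr e * tr e = tr e := by
  conv_lhs => lhs; unfold tr
  rw [Finset.sum_mul]
  conv_rhs => unfold tr
  refine Finset.sum_congr rfl fun q _ => ?_
  conv_lhs => rhs; rw [← cj_tr hc (rp q)]
  rw [← cj_hom, inc_mul_tr hc he ho]

theorem tr_eq (e : MonoidAlgebra Λ T) :
    tr e = ∑ q : X ⧸ T, single (rp q) 1 * inc T e * single (rp q)⁻¹ 1 := rfl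

section alg

variable {B : Type} [Ring B] [Algebra Λ B]

theorem ind_spec {e : MonoidAlgebra Λ T} (hc : ∀ y, e * y = y * e) (he : e * e = e)
    (ho : Orth e) {ψ : MonoidAlgebra Λ T →ₐ[Λ] B} (hs : Function.Surjective ψ)
    (hk : ∀ x, ψ x = 0 ↔ e * x = 0) :
    Function.Surjective (ind (X := X) ψ) ∧ ∀ y, ind ψ y = 0 ↔ tr e * y = 0 := by
  -- `ψ (res z) = 0` iff `e z e = 0`
  have key : ∀ z : MonoidAlgebra Λ X, ψ (res T z) = 0 ↔ inc T e * z * inc T e = 0 := by
    intro z
    rw [hk, orth_mid ho, mul_assoc, ← hc, ← mul_assoc, he]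
    constructor
    · intro h
      rw [h, map_zero]
    · intro h
      exact inc_inj T (by rw [h, map_zero])
  have hψe : ∀ a, ψ (e * a) = ψ a := by
    intro a
    rw [map_mul, IsAlg.one he hk, one_mul]
  refine ⟨?_, ?_⟩
  · -- surjectivity
    intro M
    choose f hf using hs
    refine ⟨∑ i, ∑ j, single (rp i) 1 * inc T (e * f (M i j)) * single (rp j)⁻¹ 1, ?_⟩
    ext k l
    rw [ind_apply]
    have h1 : single (rp k)⁻¹ 1 * (∑ i, ∑ j, single (rp i) 1 * inc T (e * f (M i j)) *
        single (rp j)⁻¹ 1) * single (rp l) 1 = ∑ i : X ⧸ T, ∑ j : X ⧸ T,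
        single ((rp k)⁻¹ * rp i) 1 * inc T (e * f (M i j)) * single ((rp j)⁻¹ * rp l) 1 := by
      rw [Finset.mul_sum, Finset.sum_mul]
      refine Finset.sum_congr rfl fun i _ => ?_
      rw [Finset.mul_sum, Finset.sum_mul]
      refine Finset.sum_congr rfl fun j _ => ?_
      have h2 : (single ((rp k)⁻¹ * rp i) 1 : MonoidAlgebra Λ X) =
          single (rp k)⁻¹ 1 * single (rp i) 1 := by rw [single_mul_single, mul_one]
      have h3 : (single ((rp j)⁻¹ * rp l) 1 : MonoidAlgebra Λ X) =
          single (rp j)⁻¹ 1 * single (rp l) 1 := by rw [single_mul_single, mul_one]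
      rw [h2, h3]
      simp only [mul_assoc]
    have hz : ∀ (i j : X ⧸ T), ¬ (i = k ∧ j = l) →
        ψ (res T (single ((rp k)⁻¹ * rp i) 1 * inc T (e * f (M i j)) *
          single ((rp j)⁻¹ * rp l) 1)) = 0 := by
      intro i j hij
      rw [key]
      by_cases hik : i = k
      · have hjl : j ≠ l := fun h => hij ⟨hik, h⟩
        have h4 : inc T (e * f (M i j)) = inc T (f (M i j)) * inc T e := by
          rw [← map_mul, hc]
        rw [h4]
        have h5 := ho ((rp j)⁻¹ * rp l) (fun h => hjl (rp_inj h))
        calc inc T e * (single ((rp k)⁻¹ * rp i) 1 * (inc T (f (M i j)) * inc T e) *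
              single ((rp j)⁻¹ * rp l) 1) * inc T e
            = inc T e * (single ((rp k)⁻¹ * rp i) 1 * inc T (f (M i j))) *
              (inc T e * single ((rp j)⁻¹ * rp l) 1 * inc T e) := by simp only [mul_assoc]
          _ = 0 := by rw [h5, mul_zero]
      · have h5 := ho ((rp k)⁻¹ * rp i) (fun h => hik (rp_inj h).symm)
        rw [map_mul]
        calc inc T e * (single ((rp k)⁻¹ * rp i) 1 * (inc T e * inc T (f (M i j))) *
              single ((rp j)⁻¹ * rp l) 1) * inc T e
            = (inc T e * single ((rp k)⁻¹ * rp i) 1 * inc T e) * (inc T (f (M i j)) *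
              single ((rp j)⁻¹ * rp l) 1 * inc T e) := by simp only [mul_assoc]
          _ = 0 := by rw [h5, zero_mul]
    rw [h1]
    have hres : ∀ (s : Finset (X ⧸ T)) (g : X ⧸ T → MonoidAlgebra Λ X),
        ψ (res T (∑ i ∈ s, g i)) = ∑ i ∈ s, ψ (res T (g i)) := by
      intro s g
      induction s using Finset.induction_on with
      | empty => rw [Finset.sum_empty, Finset.sum_empty, res_zero, map_zero]
      | insert a s ha ih => rw [Finset.sum_insert ha, Finset.sum_insert ha, res_add, map_add, ih]
    rw [hres, Finset.sum_eq_single k, hres, Finset.sum_eq_single l]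
    · rw [inv_mul_cancel, inv_mul_cancel, ← one_def, one_mul, mul_one, res_inc, hψe, hf]
    · intro j _ hj
      exact hz k j fun h => hj h.2
    · intro h
      exact absurd (Finset.mem_univ _) h
    · intro i _ hi
      rw [hres]
      exact Finset.sum_eq_zero fun j _ => hz i j fun h => hi h.1
    · intro h
      exact absurd (Finset.mem_univ _) h
  · -- kernel
    intro y
    constructor
    · intro h
      have h1 : ∀ i j : X ⧸ T, inc T e * (single (rp i)⁻¹ 1 * y * single (rp j) 1) * inc T e = 0 := by
        intro i j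
        rw [← key, ← ind_apply, h, Matrix.zero_apply]
      have h2 : tr e * y * tr e = 0 := by
        rw [tr_eq, Finset.sum_mul, Finset.sum_mul]
        refine Finset.sum_eq_zero fun i _ => ?_
        rw [Finset.mul_sum]
        refine Finset.sum_eq_zero fun j _ => ?_
        calc single (rp i) 1 * inc T e * single (rp i)⁻¹ 1 * y *
              (single (rp j) 1 * inc T e * single (rp j)⁻¹ 1)
            = single (rp i) 1 * (inc T e * (single (rp i)⁻¹ 1 * y * single (rp j) 1) * inc T e) *
              single (rp j)⁻¹ 1 := by simp only [mul_assoc]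
          _ = 0 := by rw [h1, mul_zero, zero_mul]
      rw [← tr_mul_tr hc he ho, mul_assoc, tr_central hc y, ← mul_assoc]
      exact h2
    · intro h
      ext i j
      rw [ind_apply, Matrix.zero_apply, key]
      have h3 : inc T e * (single (rp i)⁻¹ 1 * y * single (rp j) 1) * inc T e =
          inc T e * (single (rp i)⁻¹ 1 * (tr e * y) * single (rp j) 1) * inc T e := by
        conv_lhs => rw [← inc_mul_tr hc he ho]
        have h4 : tr e * single (rp i)⁻¹ 1 = single (rp i)⁻¹ 1 * tr e := tr_central hc _
        calc inc T e * tr e * (single (rp i)⁻¹ 1 * y * single (rp j) 1) * (inc T e * tr e)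
            = inc T e * (tr e * single (rp i)⁻¹ 1) * y * single (rp j) 1 * (inc T e * tr e) := by
              simp only [mul_assoc]
          _ = _ := by
              rw [h4, inc_mul_tr hc he ho]
              simp only [mul_assoc]
      rw [h3, h, mul_zero, zero_mul, mul_zero, zero_mul]

theorem tr_isAlg {e : MonoidAlgebra Λ T} (hc : ∀ y, e * y = y * e) (he : e * e = e)
    (ho : Orth e) (h : IsAlg Λ e B) : IsAlg Λ (tr e) (Matrix (X ⧸ T) (X ⧸ T) B) := by
  obtain ⟨ψ, hs, hk⟩ := h
  exact ⟨ind ψ, ind_spec hc he ho hs hk⟩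

theorem tr_isBlock {e : MonoidAlgebra Λ T} (hb : IsBlock e) (ho : Orth e) :
    IsBlock (tr e) := by
  obtain ⟨h1, h2, h3, h4⟩ := hb
  refine ⟨?_, tr_mul_tr h3 h2 ho, tr_central h3, ?_⟩
  · intro h
    have h5 := inc_mul_tr h3 h2 ho
    rw [h, mul_zero] at h5
    exact h1 (inc_inj T (by rw [map_zero, ← h5]))
  · intro f hf1 hf2 hf3
    have h5 : inc T e * f = inc T (e * res T f) := by
      have h6 : inc T e * f * inc T e = inc T e * f := by
        rw [mul_assoc, hf2, ← mul_assoc, ← map_mul, h2]
      rw [← h6, orth_mid ho, mul_assoc, ← h3, ← mul_assoc, h2]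
    have h7 : ∀ x, cj x f = f := fun x => cj_of_central hf2 x
    have hsum : tr e * f = ∑ q : X ⧸ T, cj (rp q) (inc T e * f) := by
      unfold tr
      rw [Finset.sum_mul]
      refine Finset.sum_congr rfl fun q _ => ?_
      rw [cj_hom, h7]
    rcases h4 (e * res T f) (inc_inj T (by
        rw [map_mul, ← h5]
        calc inc T e * f * (inc T e * f) = inc T e * (f * inc T e) * f := by
              simp only [mul_assoc]
          _ = inc T e * inc T e * (f * f) := by rw [hf2]; simp only [mul_assoc]
          _ = inc T e * f := by rw [← map_mul, h2, hf1])) (fun a => inc_inj T (by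
        rw [map_mul, ← h5, map_mul, ← h5]
        calc inc T e * f * inc T a = inc T e * (f * inc T a) := by rw [mul_assoc]
          _ = inc T (e * a) * f := by rw [hf2, ← mul_assoc, ← map_mul]
          _ = inc T a * (inc T e * f) := by rw [h3, map_mul, mul_assoc])) (by
        rw [← mul_assoc, h2]) with h | h
    · left
      rw [← hf3, hsum]
      refine Finset.sum_eq_zero fun q _ => ?_
      rw [h5, h, map_zero]
      unfold cj
      rw [mul_zero, zero_mul]
    · right
      rw [← hf3, hsum]
      unfold tr
      refine Finset.sum_congr rfl fun q _ => ?_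
      rw [h5, h]

end alg

end sub

end Pool.Agent.Helper18.BR
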