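import Pool.Agent.Helper18.BR.Ind

/-!
# Inflation, and blocks of `S × G` over a block of `S` with a matrix algebra as block algebra
-/

set_option autoImplicit false
set_option linter.unusedSectionVars false

open scoped Classical
open MonoidAlgebra

noncomputable section

namespace Pool.Agent.Helper18.BR

variable {Λ : Type} [CommRing Λ]

section infl

variable {T Q : Type} [Group T] [Finite T] [Group Q] [Finite Q]

/-- the homomorphism of the group rings -/
def push (κ : T →* Q) : MonoidAlgebra Λ T →ₐ[Λ] MonoidAlgebra Λ Q :=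
  MonoidAlgebra.mapDomainAlgHom Λ Λ κ

theorem push_single (κ : T →* Q) (t : T) (r : Λ) : push κ (single t r) = single (κ t) r :=
  mapDomain_single

/-- inflation -/
def infl (u : Λ) (κ : T →* Q) (z : MonoidAlgebra Λ Q) : MonoidAlgebra Λ T :=
  mk fun t => u * z.coeff (κ t)

theorem infl_coeff (u : Λ) (κ : T →* Q) (z : MonoidAlgebra Λ Q) (t : T) :
    (infl u κ z).coeff t = u * z.coeff (κ t) := rfl

theorem infl_add (u : Λ) (κ : T →* Q) (y z : MonoidAlgebra Λ Q) :
    infl u κ (y + z) = infl u κ y + infl u κ z := by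
  ext t
  rw [infl_coeff, coeff_add, Finsupp.add_apply, coeff_add, Finsupp.add_apply, infl_coeff,
    infl_coeff, mul_add]

theorem infl_zero (u : Λ) (κ : T →* Q) : infl u κ (0 : MonoidAlgebra Λ Q) = 0 := by
  ext t
  rw [infl_coeff]
  simp

theorem mul_infl (u : Λ) (κ : T →* Q) (y : MonoidAlgebra Λ T) (z : MonoidAlgebra Λ Q) :
    y * infl u κ z = infl u κ (push κ y * z) := by
  induction y using MonoidAlgebra.induction_linear with
  | zero => rw [zero_mul, map_zero, zero_mul, infl_zero]
  | add y y' hy hy' => rw [add_mul, hy, hy', map_add, add_mul, infl_add]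
  | single t r =>
    ext s
    rw [coeff_single_mul_apply, infl_coeff, infl_coeff, push_single, coeff_single_mul_apply,
      map_mul, map_inv]
    ring

theorem infl_mul (u : Λ) (κ : T →* Q) (y : MonoidAlgebra Λ T) (z : MonoidAlgebra Λ Q) :
    infl u κ z * y = infl u κ (z * push κ y) := by
  induction y using MonoidAlgebra.induction_linear with
  | zero => rw [mul_zero, map_zero, mul_zero, infl_zero]
  | add y y' hy hy' => rw [mul_add, hy, hy', map_add, mul_add, infl_add]
  | single t r =>
    ext s
    rw [coeff_mul_single_apply, infl_coeff, infl_coeff, push_single, coeff_mul_single_apply,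
      map_mul, map_inv]
    ring

theorem push_coeff (κ : T →* Q) (y : MonoidAlgebra Λ T) (q : Q) :
    (push κ y).coeff q = ∑ᶠ t : {t : T // κ t = q}, y.coeff t.1 := by
  have : Fintype T := Fintype.ofFinite _
  rw [finsum_eq_sum_of_fintype]
  induction y using MonoidAlgebra.induction_linear with
  | zero => simp
  | add y y' hy hy' =>
    rw [map_add, coeff_add, Finsupp.add_apply, hy, hy', ← Finset.sum_add_distrib]
    rfl
  | single t r =>
    rw [push_single, coeff_single, Finsupp.single_apply]
    split_ifs with h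
    · rw [Finset.sum_eq_single (⟨t, h⟩ : {t : T // κ t = q})]
      · rw [coeff_single, Finsupp.single_eq_same]
      · intro b _ hb
        rw [coeff_single, Finsupp.single_apply, if_neg]
        intro h1
        exact hb (Subtype.ext h1.symm)
      · intro h1
        exact absurd (Finset.mem_univ _) h1
    · symm
      refine Finset.sum_eq_zero fun b _ => ?_
      rw [coeff_single, Finsupp.single_apply, if_neg]
      intro h1
      exact h (h1 ▸ b.2)

theorem push_infl {u : Λ} {κ : T →* Q} (hκ : Function.Surjective κ)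
    (hu : u * (Nat.card κ.ker : Λ) = 1) (z : MonoidAlgebra Λ Q) : push κ (infl u κ z) = z := by
  have : Fintype T := Fintype.ofFinite _
  ext q
  rw [push_coeff, finsum_eq_sum_of_fintype]
  have h1 : ∀ t : {t : T // κ t = q}, (infl u κ z).coeff t.1 = u * z.coeff q := by
    intro t
    rw [infl_coeff, t.2]
  rw [Finset.sum_congr rfl fun t _ => h1 t, Finset.sum_const, Finset.card_univ, nsmul_eq_mul]
  have h2 : Fintype.card {t : T // κ t = q} = Nat.card κ.ker := by
    obtain ⟨t₀, ht₀⟩ := hκ q
    rw [← Nat.card_eq_fintype_card]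
    refine Nat.card_congr
      { toFun := fun t => ⟨t₀⁻¹ * t.1, by
          rw [MonoidHom.mem_ker, map_mul, map_inv, t.2, ht₀, inv_mul_cancel]⟩
        invFun := fun t => ⟨t₀ * t.1, by
          rw [map_mul, MonoidHom.mem_ker.1 t.2, ht₀, mul_one]⟩
        left_inv := fun t => Subtype.ext (by simp)
        right_inv := fun t => Subtype.ext (by simp) }
  rw [h2]
  calc (Nat.card κ.ker : Λ) * (u * z.coeff q) = u * (Nat.card κ.ker : Λ) * z.coeff q := by ring
    _ = z.coeff q := by rw [hu, one_mul]

section

variable {u : Λ} {κ : T →* Q} (hκ : Function.Surjective κ) (hu : u * (Nat.card κ.ker : Λ) = 1)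
include hκ hu

theorem push_surj : Function.Surjective (push (Λ := Λ) κ) := fun z =>
  ⟨infl u κ z, push_infl hκ hu z⟩

theorem infl_inj {y z : MonoidAlgebra Λ Q} (h : infl u κ y = infl u κ z) : y = z := by
  rw [← push_infl hκ hu y, h, push_infl hκ hu]

theorem push_ker (y : MonoidAlgebra Λ T) : push κ y = 0 ↔ infl u κ 1 * y = 0 := by
  rw [infl_mul, one_mul]
  constructor
  · intro h
    rw [h, infl_zero]
  · intro h
    exact infl_inj hκ hu (by rw [h, infl_zero])

theorem infl_one_central (y : MonoidAlgebra Λ T) : infl u κ 1 * y = y * infl u κ 1 := by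
  rw [infl_mul, mul_infl, one_mul, mul_one]

theorem infl_one_mul (z : MonoidAlgebra Λ Q) : infl u κ 1 * infl u κ z = infl u κ z := by
  rw [infl_mul, one_mul, push_infl hκ hu]

theorem infl_isBlock {z : MonoidAlgebra Λ Q} (h : IsBlock z) : IsBlock (infl u κ z) :=
  isBlock_of_map (push κ) (push_surj hκ hu) (push_ker hκ hu) (infl_one_central hκ hu)
    (infl_one_mul hκ hu z) (by rw [push_infl hκ hu]; exact h)

theorem infl_isAlg {z : MonoidAlgebra Λ Q} {B : Type} [Ring B] [Algebra Λ B]
    (h : IsAlg Λ z B) : IsAlg Λ (infl u κ z) B :=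
  isAlg_of_map (push κ) (push_surj hκ hu) (push_ker hκ hu)
    (infl_one_mul hκ hu z) (by rw [push_infl hκ hu]; exact h)

end

end infl

section ten

variable {S G : Type} [Group S] [Finite S] [Group G] [Finite G]

/-- the tensor product of elements of the group rings of `S` and `G` -/
def ten (ε : MonoidAlgebra Λ S) (z : MonoidAlgebra Λ G) : MonoidAlgebra Λ (S × G) :=
  mk fun p => ε.coeff p.1 * z.coeff p.2

theorem ten_coeff (ε : MonoidAlgebra Λ S) (z : MonoidAlgebra Λ G) (p : S × G) :
    (ten ε z).coeff p = ε.coeff p.1 * z.coeff p.2 := rfl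

/-- the slice at `g` -/
def slice (y : MonoidAlgebra Λ (S × G)) (g : G) : MonoidAlgebra Λ S := mk fun s => y.coeff (s, g)

theorem slice_coeff (y : MonoidAlgebra Λ (S × G)) (g : G) (s : S) :
    (slice y g).coeff s = y.coeff (s, g) := rfl

theorem slice_add (y z : MonoidAlgebra Λ (S × G)) (g : G) :
    slice (y + z) g = slice y g + slice z g := by
  ext s; rfl

theorem slice_ten (ε : MonoidAlgebra Λ S) (z : MonoidAlgebra Λ G) (g : G) :
    slice (ten ε z) g = z.coeff g • ε := by
  ext s
  rw [slice_coeff, ten_coeff, coeff_smul, Finsupp.smul_apply, smul_eq_mul, mul_comm]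

theorem slice_single (s : S) (h g : G) (r : Λ) :
    slice (single (s, h) r) g = if h = g then single s r else 0 := by
  ext s'
  rw [slice_coeff, coeff_single, Finsupp.single_apply]
  split_ifs with h1 h2 h2
  · rw [coeff_single, Finsupp.single_apply, if_pos (congrArg Prod.fst h1)]
  · exact absurd (congrArg Prod.snd h1) h2
  · rw [coeff_single, Finsupp.single_apply, if_neg]
    intro h3
    exact h1 (Prod.ext h3 h2)
  · rfl

theorem ten_mul_slice (ε : MonoidAlgebra Λ S) (y : MonoidAlgebra Λ (S × G)) (g : G) :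
    slice (ten ε 1 * y) g = ε * slice y g := by
  induction y using MonoidAlgebra.induction_linear with
  | zero =>
    rw [mul_zero]
    have h : slice (0 : MonoidAlgebra Λ (S × G)) g = 0 := by ext; rfl
    rw [h, mul_zero]
  | add y z hy hz => rw [mul_add, slice_add, slice_add, hy, hz, mul_add]
  | single p r =>
    obtain ⟨s, h⟩ := p
    rw [slice_single]
    ext s'
    rw [slice_coeff, coeff_mul_single_apply, ten_coeff]
    simp only [Prod.fst_mul, Prod.snd_mul, Prod.fst_inv, Prod.snd_inv]
    split_ifs with h1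
    · subst h1
      rw [mul_inv_cancel, coeff_one_one, mul_one, coeff_mul_single_apply]
    · rw [one_def, coeff_single, Finsupp.single_apply, if_neg, mul_zero, zero_mul, mul_zero]
      · rfl
      · intro h2
        exact h1 (mul_inv_eq_one.1 h2.symm).symm

theorem mul_ten_slice (ε : MonoidAlgebra Λ S) (y : MonoidAlgebra Λ (S × G)) (g : G) :
    slice (y * ten ε 1) g = slice y g * ε := by
  induction y using MonoidAlgebra.induction_linear with
  | zero =>
    rw [zero_mul]
    have h : slice (0 : MonoidAlgebra Λ (S × G)) g = 0 := by ext; rfl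
    rw [h, zero_mul]
  | add y z hy hz => rw [add_mul, slice_add, slice_add, hy, hz, add_mul]
  | single p r =>
    obtain ⟨s, h⟩ := p
    rw [slice_single]
    ext s'
    rw [slice_coeff, coeff_single_mul_apply, ten_coeff]
    simp only [Prod.fst_mul, Prod.snd_mul, Prod.fst_inv, Prod.snd_inv]
    split_ifs with h1
    · subst h1
      rw [inv_mul_cancel, coeff_one_one, mul_one, coeff_single_mul_apply]
    · rw [one_def, coeff_single, Finsupp.single_apply, if_neg, mul_zero, mul_zero, zero_mul]
      · rfl
      · intro h2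
        exact h1 (inv_mul_eq_one.1 h2.symm)

theorem eq_of_slice {y z : MonoidAlgebra Λ (S × G)} (h : ∀ g, slice y g = slice z g) : y = z := by
  ext ⟨s, g⟩
  rw [← slice_coeff, h g, slice_coeff]

variable {m : Type} [Fintype m] [Nonempty m]

/-- `Λ[S × G] → Mat_m(ΛG)` on group elements -/
def psi0 (τ : MonoidAlgebra Λ S →ₐ[Λ] Matrix m m Λ) :
    S × G →* Matrix m m (MonoidAlgebra Λ G) where
  toFun p := Matrix.of fun i j => single p.2 (τ (single p.1 1) i j)
  map_one' := by
    ext i j : 2
    rw [Matrix.of_apply, Prod.fst_one, Prod.snd_one, ← one_def, map_one]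
    by_cases h : i = j
    · subst h
      rw [Matrix.one_apply_eq, Matrix.one_apply_eq, ← one_def]
    · rw [Matrix.one_apply_ne h, Matrix.one_apply_ne h, single_zero]
  map_mul' p q := by
    ext i j : 2
    rw [Matrix.of_apply, Matrix.mul_apply]
    have h1 : (single (p * q).1 1 : MonoidAlgebra Λ S) = single p.1 1 * single q.1 1 := by
      rw [single_mul_single, mul_one, Prod.fst_mul]
    rw [h1, map_mul, Matrix.mul_apply]
    simp only [Matrix.of_apply, single_mul_single]
    rw [← Prod.snd_mul]
    exact congrArg coeff (map_sum (singleAddHom (R := Λ) (p * q).2) _ _)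

/-- `Λ[S × G] → Mat_m(ΛG)` -/
def psi (τ : MonoidAlgebra Λ S →ₐ[Λ] Matrix m m Λ) :
    MonoidAlgebra Λ (S × G) →ₐ[Λ] Matrix m m (MonoidAlgebra Λ G) :=
  MonoidAlgebra.lift Λ _ (S × G) (psi0 τ)

theorem psi_coeff (τ : MonoidAlgebra Λ S →ₐ[Λ] Matrix m m Λ) (y : MonoidAlgebra Λ (S × G))
    (i j : m) (g : G) : (psi τ y i j).coeff g = τ (slice y g) i j := by
  induction y using MonoidAlgebra.induction_linear with
  | zero =>
    have h : slice (0 : MonoidAlgebra Λ (S × G)) g = 0 := by ext; rfl
    rw [map_zero, h, map_zero]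
    rfl
  | add y z hy hz =>
    rw [map_add, Matrix.add_apply, coeff_add, Finsupp.add_apply, hy, hz, slice_add, map_add,
      Matrix.add_apply]
  | single p r =>
    obtain ⟨s, h⟩ := p
    rw [psi, MonoidAlgebra.lift_single, slice_single]
    change (r • single h (τ (single s 1) i j) : MonoidAlgebra Λ G).coeff g = _
    rw [smul_single, coeff_single, Finsupp.single_apply]
    split_ifs
    · have h1 : (single s r : MonoidAlgebra Λ S) = r • single s 1 := by
        rw [smul_single, smul_eq_mul, mul_one]
      rw [h1, map_smul, Matrix.smul_apply]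
    · rw [map_zero, Matrix.zero_apply]

variable {τ : MonoidAlgebra Λ S →ₐ[Λ] Matrix m m Λ} {ε : MonoidAlgebra Λ S}

theorem psi_ten (hτ : τ ε = 1) (z : MonoidAlgebra Λ G) : psi τ (ten ε z) = Matrix.scalar m z := by
  ext i j g : 3
  rw [psi_coeff, slice_ten, map_smul, hτ, Matrix.smul_apply, smul_eq_mul, Matrix.scalar_apply]
  by_cases h : i = j
  · subst h
    rw [Matrix.one_apply_eq, Matrix.diagonal_apply_eq, mul_one]
  · rw [Matrix.one_apply_ne h, Matrix.diagonal_apply_ne _ h, mul_zero]
    rfl

theorem psi_surj (hs : Function.Surjective τ) : Function.Surjective (psi (G := G) τ) := by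
  intro M
  choose f hf using hs
  let c : G → MonoidAlgebra Λ S := fun g => f (Matrix.of fun i j => (M i j).coeff g)
  refine ⟨mk fun p => (c p.2).coeff p.1, ?_⟩
  ext i j g : 3
  rw [psi_coeff]
  have h : slice (mk fun p : S × G => (c p.2).coeff p.1) g = c g := by
    ext s; rfl
  rw [h, hf]
  rfl

theorem psi_ker (hk : ∀ x, τ x = 0 ↔ ε * x = 0) (y : MonoidAlgebra Λ (S × G)) :
    psi τ y = 0 ↔ ten ε 1 * y = 0 := by
  constructor
  · intro h
    apply eq_of_slice
    intro g
    rw [ten_mul_slice]
    have h1 : τ (slice y g) = 0 := by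
      ext i j
      rw [← psi_coeff, h]
      rfl
    rw [hk] at h1
    rw [h1]
    ext; rfl
  · intro h
    ext i j g : 3
    rw [psi_coeff]
    have h1 : ε * slice y g = 0 := by
      rw [← ten_mul_slice, h]
      ext; rfl
    rw [← hk] at h1
    rw [h1]
    rfl

theorem ten_one_central (hc : ∀ x, ε * x = x * ε) (y : MonoidAlgebra Λ (S × G)) :
    ten ε 1 * y = y * ten ε 1 := by
  apply eq_of_slice
  intro g
  rw [ten_mul_slice, mul_ten_slice, hc]

theorem ten_one_mul (he : ε * ε = ε) (z : MonoidAlgebra Λ G) :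
    ten ε 1 * ten ε z = ten ε z := by
  apply eq_of_slice
  intro g
  rw [ten_mul_slice, slice_ten, mul_smul_comm, he]

theorem ten_isBlock (hs : Function.Surjective τ) (hk : ∀ x, τ x = 0 ↔ ε * x = 0)
    (hc : ∀ x, ε * x = x * ε) (he : ε * ε = ε) {z : MonoidAlgebra Λ G} (h : IsBlock z) :
    IsBlock (ten ε z) :=
  isBlock_of_map (psi τ) (psi_surj hs) (psi_ker hk) (ten_one_central hc) (ten_one_mul he z)
    (by rw [psi_ten (IsAlg.one he hk)]; exact isBlock_scalar h)

theorem ten_isAlg (hs : Function.Surjective τ) (hk : ∀ x, τ x = 0 ↔ ε * x = 0)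
    (he : ε * ε = ε) {z : MonoidAlgebra Λ G} {B : Type} [Ring B] [Algebra Λ B]
    (h : IsAlg Λ z B) : IsAlg Λ (ten ε z) (Matrix m m B) :=
  isAlg_of_map (psi τ) (psi_surj hs) (psi_ker hk) (ten_one_mul he z)
    (by rw [psi_ten (IsAlg.one he hk)]; exact isAlg_scalar h)

end ten

end Pool.Agent.Helper18.BR
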