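import Pool.Agent.Helper18.BR.Br

/-!
# Lifting blocks of `G` to blocks of `X`

`T` is a subgroup of `X` and `κ : T → S × G` a surjective homomorphism whose kernel has invertible
order; `ε` is a block of `S` whose block algebra is a matrix algebra.
-/

set_option autoImplicit false
set_option linter.unusedSectionVars false

open scoped Classical
open MonoidAlgebra

noncomputable section

namespace Pool.Agent.Helper18.BR

variable {Λ : Type} [CommRing Λ]

section ten2

variable {S G : Type} [Group S] [Finite S] [Group G] [Finite G]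

theorem ten_mul_ten_one {ε : MonoidAlgebra Λ S} (he : ε * ε = ε) (z : MonoidAlgebra Λ G) :
    ten ε z * ten ε 1 = ten ε z := by
  apply eq_of_slice
  intro g
  rw [mul_ten_slice, slice_ten, smul_mul_assoc, he]

theorem ten_add (ε : MonoidAlgebra Λ S) (y z : MonoidAlgebra Λ G) :
    ten ε (y + z) = ten ε y + ten ε z := by
  ext p
  rw [ten_coeff, coeff_add, Finsupp.add_apply, coeff_add, Finsupp.add_apply, ten_coeff, ten_coeff,
    mul_add]

theorem ten_zero (ε : MonoidAlgebra Λ S) : ten ε (0 : MonoidAlgebra Λ G) = 0 := by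
  ext p
  rw [ten_coeff]
  simp

theorem cj_ten (s : S) (g : G) (ε : MonoidAlgebra Λ S) (z : MonoidAlgebra Λ G) :
    cj (s, g) (ten ε z) = ten (cj s ε) (cj g z) := by
  ext p
  rw [cj_coeff, ten_coeff, ten_coeff, cj_coeff, cj_coeff]
  rfl

end ten2

section lft

variable {T S G : Type} [Group T] [Finite T] [Group S] [Finite S] [Group G] [Finite G]

theorem cj_infl {Q : Type} [Group Q] [Finite Q] (u : Λ) (κ : T →* Q) (t : T)
    (z : MonoidAlgebra Λ Q) : cj t (infl u κ z) = infl u κ (cj (κ t) z) := by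
  ext s
  rw [cj_coeff, infl_coeff, infl_coeff, cj_coeff]
  simp

/-- the lift of an element of `ΛG` -/
def lft (u : Λ) (κ : T →* S × G) (ε : MonoidAlgebra Λ S) (z : MonoidAlgebra Λ G) :
    MonoidAlgebra Λ T := infl u κ (ten ε z)

theorem lft_coeff (u : Λ) (κ : T →* S × G) (ε : MonoidAlgebra Λ S) (z : MonoidAlgebra Λ G)
    (t : T) : (lft u κ ε z).coeff t = u * (ε.coeff (κ t).1 * z.coeff (κ t).2) := rfl

theorem lft_add (u : Λ) (κ : T →* S × G) (ε : MonoidAlgebra Λ S) (y z : MonoidAlgebra Λ G) :
    lft u κ ε (y + z) = lft u κ ε y + lft u κ ε z := by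
  unfold lft
  rw [ten_add, infl_add]

theorem lft_zero (u : Λ) (κ : T →* S × G) (ε : MonoidAlgebra Λ S) :
    lft u κ ε (0 : MonoidAlgebra Λ G) = 0 := by
  unfold lft
  rw [ten_zero, infl_zero]

theorem lft_sum {ι : Type} (u : Λ) (κ : T →* S × G) (ε : MonoidAlgebra Λ S) (s : Finset ι)
    (z : ι → MonoidAlgebra Λ G) : lft u κ ε (∑ i ∈ s, z i) = ∑ i ∈ s, lft u κ ε (z i) := by
  induction s using Finset.induction_on with
  | empty => rw [Finset.sum_empty, Finset.sum_empty, lft_zero]
  | insert a s ha ih => rw [Finset.sum_insert ha, Finset.sum_insert ha, lft_add, ih]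

theorem cj_lft {ε : MonoidAlgebra Λ S} (hc : ∀ x, ε * x = x * ε) (u : Λ) (κ : T →* S × G)
    (t : T) (z : MonoidAlgebra Λ G) : cj t (lft u κ ε z) = lft u κ ε (cj (κ t).2 z) := by
  unfold lft
  rw [cj_infl]
  have h : κ t = ((κ t).1, (κ t).2) := rfl
  rw [h, cj_ten, cj_of_central hc]

/-- a matrix algebra as block algebra of `S` -/
structure MatBlock (Λ : Type) [CommRing Λ] (S : Type) [Group S] [Finite S] (m : Type) [Fintype m]
    [Nonempty m] where
  τ : MonoidAlgebra Λ S →ₐ[Λ] Matrix m m Λ
  ε : MonoidAlgebra Λ S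
  surj : Function.Surjective τ
  ker : ∀ x, τ x = 0 ↔ ε * x = 0
  central : ∀ x, ε * x = x * ε
  idem : ε * ε = ε
  aug : ∑ᶠ s, ε.coeff s = 0

variable {m : Type} [Fintype m] [Nonempty m] (M : MatBlock Λ S m)

theorem lft_isBlock {u : Λ} {κ : T →* S × G} (hκ : Function.Surjective κ)
    (hu : u * (Nat.card κ.ker : Λ) = 1) {z : MonoidAlgebra Λ G} (h : IsBlock z) :
    IsBlock (lft u κ M.ε z) :=
  infl_isBlock hκ hu (ten_isBlock M.surj M.ker M.central M.idem h)

theorem lft_isAlg {u : Λ} {κ : T →* S × G} (hκ : Function.Surjective κ)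
    (hu : u * (Nat.card κ.ker : Λ) = 1) {z : MonoidAlgebra Λ G} {B : Type} [Ring B] [Algebra Λ B]
    (h : IsAlg Λ z B) : IsAlg Λ (lft u κ M.ε z) (Matrix m m B) :=
  infl_isAlg hκ hu (ten_isAlg M.surj M.ker M.idem h)

theorem MatBlock.exists_unit [IsLocalRing Λ] : ∃ s, IsUnit (M.ε.coeff s) := by
  by_contra hno
  push Not at hno
  have : Fintype S := Fintype.ofFinite _
  obtain ⟨i⟩ := ‹Nonempty m›
  have h1 : M.τ M.ε = 1 := IsAlg.one M.idem M.ker
  have h2 : M.ε = ∑ s, single s (M.ε.coeff s) := by
    ext t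
    rw [coeff_sum, Finset.sum_apply', Finset.sum_eq_single t]
    · rw [coeff_single, Finsupp.single_eq_same]
    · intro b _ hb
      rw [coeff_single, Finsupp.single_apply, if_neg hb]
    · intro h
      exact absurd (Finset.mem_univ _) h
  have h3 : (1 : Λ) = ∑ s, M.ε.coeff s * M.τ (single s 1) i i := by
    have h4 := congrFun (congrFun h1 i) i
    rw [Matrix.one_apply_eq, h2, map_sum, Matrix.sum_apply] at h4
    refine h4.symm.trans (Finset.sum_congr rfl fun s _ => ?_)
    have h5 : (single s (M.ε.coeff s) : MonoidAlgebra Λ S) = M.ε.coeff s • single s 1 := by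
      rw [smul_single, smul_eq_mul, mul_one]
    rw [h5, map_smul, Matrix.smul_apply, smul_eq_mul]
  have h6 : (1 : Λ) ∈ IsLocalRing.maximalIdeal Λ := by
    rw [h3]
    refine Ideal.sum_mem _ fun s _ => Ideal.mul_mem_right _ _ ?_
    rw [IsLocalRing.mem_maximalIdeal, mem_nonunits_iff]
    exact hno s
  rw [IsLocalRing.mem_maximalIdeal, mem_nonunits_iff] at h6
  exact h6 isUnit_one

end lft

section orth

variable {X S G : Type} [Group X] [Finite X] [Group S] [Finite S] [Group G] [Finite G]
  {T : Subgroup X} {m : Type} [Fintype m] [Nonempty m] (M : MatBlock Λ S m)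

/-- for the elements `x` outside of `T` there is a lift of `S` to `T` whose conjugate by `x` is
contained in the kernel of `κ` -/
def Sep (κ : T →* S × G) : Prop :=
  ∀ x : X, x ∉ T → ∃ j t : S → T, (∀ s, κ (j s) = (s, 1)) ∧
    ∀ s, κ (t s) = 1 ∧ (t s : X) = x⁻¹ * (j s : X) * x

theorem lft_orth {u : Λ} {κ : T →* S × G} (hS : Sep κ) (z : MonoidAlgebra Λ G) :
    Orth (lft u κ M.ε z) := by
  have : Fintype S := Fintype.ofFinite _
  intro x hx
  obtain ⟨j, t, hj, ht⟩ := hS x hx
  let a : MonoidAlgebra Λ T := ∑ s, single (j s) (M.ε.coeff s)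
  let b : MonoidAlgebra Λ T := ∑ s, single (t s) (M.ε.coeff s)
  have h1 : push κ a = ten M.ε 1 := by
    change push κ (∑ s, single (j s) (M.ε.coeff s)) = _
    rw [map_sum]
    ext ⟨s', g⟩
    rw [coeff_sum, Finset.sum_apply', ten_coeff, Finset.sum_eq_single s']
    · rw [push_single, hj, coeff_single, Finsupp.single_apply, one_def, coeff_single,
        Finsupp.single_apply]
      by_cases hg : (1 : G) = g
      · rw [if_pos (by rw [hg]), if_pos hg, mul_one]
      · rw [if_neg (fun h => hg (congrArg Prod.snd h)), if_neg hg, mul_zero]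
    · intro s _ hs
      rw [push_single, hj, coeff_single, Finsupp.single_apply, if_neg]
      intro h
      exact hs (congrArg Prod.fst h)
    · intro h
      exact absurd (Finset.mem_univ _) h
  have h2 : lft u κ M.ε z * a = lft u κ M.ε z := by
    unfold lft
    rw [infl_mul, h1, ten_mul_ten_one M.idem]
  have h3 : push κ b = 0 := by
    change push κ (∑ s, single (t s) (M.ε.coeff s)) = _
    rw [map_sum]
    have h4 : ∀ s, push κ (single (t s) (M.ε.coeff s)) = single 1 (M.ε.coeff s) := by
      intro s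
      rw [push_single, (ht s).1]
    rw [Finset.sum_congr rfl fun s _ => h4 s]
    have h5 := (map_sum (singleAddHom (R := Λ) (1 : S × G)) (fun s => M.ε.coeff s)
      Finset.univ).symm
    refine h5.trans ?_
    have h6 := M.aug
    rw [finsum_eq_sum_of_fintype] at h6
    rw [h6, map_zero]
  have h4 : b * lft u κ M.ε z = 0 := by
    unfold lft
    rw [mul_infl, h3, zero_mul, infl_zero]
  have h5 : inc T a * single x 1 = single x 1 * inc T b := by
    change inc T (∑ s, single (j s) (M.ε.coeff s)) * _ =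
      _ * inc T (∑ s, single (t s) (M.ε.coeff s))
    rw [map_sum, map_sum, Finset.sum_mul, Finset.mul_sum]
    refine Finset.sum_congr rfl fun s _ => ?_
    rw [inc_single, inc_single, single_mul_single, single_mul_single, mul_one, one_mul, (ht s).2]
    congr 1
    group
  calc inc T (lft u κ M.ε z) * single x 1 * inc T (lft u κ M.ε z)
      = inc T (lft u κ M.ε z) * (inc T a * single x 1) * inc T (lft u κ M.ε z) := by
        conv_lhs => lhs; lhs; rw [← h2, map_mul]
        simp only [mul_assoc]
    _ = inc T (lft u κ M.ε z) * single x 1 * inc T (b * lft u κ M.ε z) := by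
        rw [h5, map_mul]
        simp only [mul_assoc]
    _ = 0 := by rw [h4, map_zero, mul_zero]

end orth

end Pool.Agent.Helper18.BR
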