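import Pool.Agent.Helper18.BR.Wr

/-!
# Transfer of blocks to permutational wreath products
-/

set_option autoImplicit false
set_option linter.unusedSectionVars false

open scoped Classical
open MonoidAlgebra SemidirectProduct

noncomputable section

namespace Pool.Agent.Helper18.BR

section transfer

variable {Λ : Type} [CommRing Λ] [IsLocalRing Λ]

variable {S H G : Type} [Group S] [Finite S] [Group H] [Finite H] [Group G] [Finite G]
  {i : G →* H} (hi : Function.Injective i) {m : Type} [Fintype m] [Nonempty m]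
  (M : MatBlock Λ S m)

omit [IsLocalRing Λ] in
theorem unit_kap {w : Λ} (hw : w * (Nat.card S : Λ) = 1) :
    ∃ u : Λ, u * (Nat.card (kap (S := S) hi).ker : Λ) = 1 := by
  obtain ⟨k, hk⟩ := card_ker_dvd (S := S) hi
  rw [Nat.card_fun] at hk
  refine ⟨w ^ Nat.card (H ⧸ i.range) * k, ?_⟩
  have h1 : ((Nat.card S : Λ)) ^ Nat.card (H ⧸ i.range) =
      (Nat.card (kap (S := S) hi).ker : Λ) * (k : Λ) := by
    rw [← Nat.cast_pow, hk, Nat.cast_mul]
  calc w ^ Nat.card (H ⧸ i.range) * (k : Λ) * (Nat.card (kap (S := S) hi).ker : Λ)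
      = w ^ Nat.card (H ⧸ i.range) * ((Nat.card (kap (S := S) hi).ker : Λ) * (k : Λ)) := by ring
    _ = (w * (Nat.card S : Λ)) ^ Nat.card (H ⧸ i.range) := by rw [← h1, mul_pow]
    _ = 1 := by rw [hw, one_pow]

theorem unit_kapY (p : ℕ) [Fact p.Prime] (hp : ¬ IsUnit (p : Λ)) {D : Subgroup G}
    (hD : IsPGroup p D) {w : Λ} (hw : w * (Nat.card S : Λ) = 1) :
    ∃ u : Λ, u * (Nat.card (kapY (S := S) hi D).ker : Λ) = 1 := by
  have := charP_res p hp
  obtain ⟨u, hu⟩ := unit_kap hi hw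
  have h1 : IsUnit (Nat.card (kap (S := S) hi).ker : Λ) := IsUnit.of_mul_eq_one u (by rw [mul_comm, hu])
  have h2 : IsUnit (Nat.card (kapY (S := S) hi D).ker : Λ) := by
    rw [← rd_ne] at h1 ⊢
    rw [map_natCast] at h1 ⊢
    rwa [← (CharP.natCast_eq_natCast (IsLocalRing.ResidueField Λ) p).2
      (card_ker_modEq (S := S) hi p hD)]
  obtain ⟨v, hv⟩ := h2.exists_left_inv
  exact ⟨v, hv⟩

theorem rd_units (p : ℕ) [Fact p.Prime] (hp : ¬ IsUnit (p : Λ)) {D : Subgroup G}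
    (hD : IsPGroup p D) {u v : Λ} (hu : u * (Nat.card (kap (S := S) hi).ker : Λ) = 1)
    (hv : v * (Nat.card (kapY (S := S) hi D).ker : Λ) = 1) : rd u = rd v := by
  have := charP_res p hp
  have h1 := congrArg (rd (Λ := Λ)) hu
  have h2 := congrArg (rd (Λ := Λ)) hv
  rw [map_mul, map_natCast, map_one] at h1 h2
  rw [(CharP.natCast_eq_natCast (IsLocalRing.ResidueField Λ) p).2
    (card_ker_modEq (S := S) hi p hD)] at h1
  have h3 : (Nat.card (kapY (S := S) hi D).ker : IsLocalRing.ResidueField Λ) ≠ 0 := by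
    intro h
    rw [h, mul_zero] at h2
    exact zero_ne_one h2
  exact mul_right_cancel₀ h3 (h1.trans h2.symm)

include hi M in
theorem transfer (p : ℕ) [Fact p.Prime] (hp : ¬ IsUnit (p : Λ)) {w : Λ}
    (hw : w * (Nat.card S : Λ) = 1) {e : MonoidAlgebra Λ G} {D : Subgroup G} (he : IsBlock e)
    (hD : IsDefect p e D) {c : MonoidAlgebra Λ (Nm D)} (hc : IsCor e D c) :
    ∃ (e' : MonoidAlgebra Λ (WX S i)) (c' : MonoidAlgebra Λ (Nm (EE S i D))),
      IsBlock e' ∧ IsDefect p e' (EE S i D) ∧ IsCor e' (EE S i D) c' ∧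
      (∀ (A : Type) [Ring A] [Algebra Λ A], IsAlg Λ e A →
        IsAlg Λ e' (Matrix (WX S i ⧸ TT S i) (WX S i ⧸ TT S i) (Matrix m m A))) ∧
      ∀ (B : Type) [Ring B] [Algebra Λ B], IsAlg Λ c B →
        IsAlg Λ c' (Matrix (Nm (EE S i D) ⧸ (TT S i).subgroupOf (Nm (EE S i D)))
          (Nm (EE S i D) ⧸ (TT S i).subgroupOf (Nm (EE S i D))) (Matrix m m B)) := by
  obtain ⟨u, hu⟩ := unit_kap hi hw
  obtain ⟨v, hv⟩ := unit_kapY hi p hp hD.1 hw
  have huu : IsUnit u := IsUnit.of_mul_eq_one _ hu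
  have hM := match_EE (S := S) hi D
  have hEp : IsPGroup p (EE S i D) := EE_pgroup hD.1
  have hET : EE S i D ≤ TT S i := EE_le D
  have hb1 : IsBlock (lft u (kap hi) M.ε e) := lft_isBlock M (kap_surj hi) hu he
  have hb2 : IsBlock (lft v (kapY hi D) M.ε c) := lft_isBlock M (kapY_surj hi) hv hc.1
  have ho1 : Orth (lft u (kap hi) M.ε e) := lft_orth M (sep_kap hi) e
  have ho2 : Orth (lft v (kapY hi D) M.ε c) := lft_orth M (sep_kapY hi) c
  have ht1 : IsTr ((EE S i D).subgroupOf (TT S i)) (lft u (kap hi) M.ε e) :=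
    isTr_lft M (kap_surj hi) hu hw hM hD.2.2
  have hB1 : IsBlock (tr (lft u (kap hi) M.ε e)) := tr_isBlock hb1 ho1
  have hB2 : IsBlock (tr (lft v (kapY hi D) M.ε c)) := tr_isBlock hb2 ho2
  refine ⟨tr (lft u (kap hi) M.ε e), tr (lft v (kapY hi D) M.ε c), hB1, ⟨hEp, ?_, ?_⟩, ?_, ?_, ?_⟩
  · refine brNe_tr p hp hET hEp hb1.2.2.1 hb1.2.1 ho1 ?_
    exact brNe_lft M huu (fun s g hg => ⟨cst S i s g, cst_cent s hg, kap_cst hi s g⟩) hD.2.1
  · exact isTr_tr hET ht1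
  · refine isCor_tr p hp hET hEp hb1.2.2.1 ht1 hb2.2.2.1 hB2 ?_
    intro n hn hnY hnc
    rw [lft_coeff, lft_coeff, map_mul, map_mul, map_mul, map_mul, rd_units hi p hp hD.1 hu hv]
    congr 2
    have h1 : kapY hi D ⟨⟨n, hnY⟩, hn⟩ = ((kap hi ⟨n, hn⟩).1, ⟨(kap hi ⟨n, hn⟩).2,
        kap_nm hi hnY⟩) := rfl
    rw [h1]
    symm
    rw [rd_eq]
    refine hc.2 ⟨(kap hi ⟨n, hn⟩).2, kap_nm hi hnY⟩ ?_
    rw [mem_cent] at hnc ⊢
    intro d hd
    have h2 := hnc (inr (i d)) ⟨d, hd, rfl⟩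
    apply hi
    rw [map_mul, map_mul]
    have h3 : i (kap hi ⟨n, hn⟩).2 = n.right := i_kap hi ⟨n, hn⟩
    change i d * i (kap hi ⟨n, hn⟩).2 = i (kap hi ⟨n, hn⟩).2 * i d
    rw [h3]
    exact congrArg SemidirectProduct.right h2
  · intro A _ _ hA
    exact tr_isAlg hb1.2.2.1 hb1.2.1 ho1 (lft_isAlg M (kap_surj hi) hu hA)
  · intro B _ _ hB
    exact tr_isAlg hb2.2.2.1 hb2.2.1 ho2 (lft_isAlg M (kapY_surj hi) hv hB)

end transfer

end Pool.Agent.Helper18.BR
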