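import Pool.Agent.Helper18.BR.Main

/-!
# Matrix blocks from surjective representations
-/

set_option autoImplicit false
set_option linter.unusedSectionVars false

open scoped Classical
open MonoidAlgebra

noncomputable section

namespace Pool.Agent.Helper18.BR

section ofh

variable {Λ : Type} [CommRing Λ] {S : Type} [Group S] [Finite S] {m : Type} [Fintype m]
  [Nonempty m]

/-- the averaged section -/
def avg [Fintype S] (w : Λ) (τ : MonoidAlgebra Λ S →ₐ[Λ] Matrix m m Λ)
    (h : Matrix m m Λ →ₗ[Λ] MonoidAlgebra Λ S) (a : Matrix m m Λ) : MonoidAlgebra Λ S :=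
  (w * w) • ∑ s : S, ∑ t : S,
    single s 1 * h (τ (single s⁻¹ 1) * a * τ (single t⁻¹ 1)) * single t 1

variable [Fintype S] {w : Λ} (τ : MonoidAlgebra Λ S →ₐ[Λ] Matrix m m Λ)
  (h : Matrix m m Λ →ₗ[Λ] MonoidAlgebra Λ S)

omit [Finite S] [Nonempty m] in
theorem avg_add (a b : Matrix m m Λ) : avg w τ h (a + b) = avg w τ h a + avg w τ h b := by
  unfold avg
  rw [← smul_add, ← Finset.sum_add_distrib]
  congr 1
  refine Finset.sum_congr rfl fun s _ => ?_
  rw [← Finset.sum_add_distrib]
  refine Finset.sum_congr rfl fun t _ => ?_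
  rw [mul_add, add_mul, map_add, mul_add, add_mul]

omit [Finite S] [Nonempty m] in
theorem avg_smul (r : Λ) (a : Matrix m m Λ) : avg w τ h (r • a) = r • avg w τ h a := by
  unfold avg
  rw [smul_comm r]
  congr 1
  rw [Finset.smul_sum]
  refine Finset.sum_congr rfl fun s _ => ?_
  rw [Finset.smul_sum]
  refine Finset.sum_congr rfl fun t _ => ?_
  rw [mul_smul_comm, smul_mul_assoc, map_smul, mul_smul_comm, smul_mul_assoc]

omit [Finite S] [Nonempty m] in
theorem avg_left0 (g : S) (a : Matrix m m Λ) :
    avg w τ h (τ (single g 1) * a) = single g 1 * avg w τ h a := by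
  unfold avg
  rw [mul_smul_comm, Finset.mul_sum]
  congr 1
  refine Fintype.sum_equiv (Equiv.mulLeft g⁻¹) _ _ fun s => ?_
  rw [Finset.mul_sum]
  refine Finset.sum_congr rfl fun t _ => ?_
  rw [Equiv.coe_mulLeft, mul_inv_rev, inv_inv, ← mul_assoc (τ (single s⁻¹ 1)), ← map_mul,
    single_mul_single, mul_one, ← mul_assoc, ← mul_assoc, single_mul_single, mul_one,
    mul_inv_cancel_left]

omit [Finite S] [Nonempty m] in
theorem avg_right0 (g : S) (a : Matrix m m Λ) :
    avg w τ h (a * τ (single g 1)) = avg w τ h a * single g 1 := by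
  unfold avg
  rw [smul_mul_assoc, Finset.sum_mul]
  congr 1
  refine Finset.sum_congr rfl fun s _ => ?_
  rw [Finset.sum_mul]
  refine Fintype.sum_equiv (Equiv.mulRight g⁻¹) _ _ fun t => ?_
  rw [Equiv.coe_mulRight, mul_inv_rev, inv_inv, mul_assoc (τ (single s⁻¹ 1)), mul_assoc a,
    ← map_mul, single_mul_single, mul_one, mul_assoc _ (single (t * g⁻¹) 1), single_mul_single,
    mul_one, inv_mul_cancel_right]
  simp only [mul_assoc]

omit [Finite S] [Nonempty m] in
theorem avg_left (x : MonoidAlgebra Λ S) (a : Matrix m m Λ) :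
    avg w τ h (τ x * a) = x * avg w τ h a := by
  induction x using MonoidAlgebra.induction_linear with
  | zero =>
    have h1 := avg_smul (w := w) τ h 0 a
    rw [zero_smul, zero_smul] at h1
    rw [map_zero, zero_mul, zero_mul, h1]
  | add y z hy hz => rw [map_add, add_mul, avg_add, hy, hz, add_mul]
  | single g r =>
    have h1 : (single g r : MonoidAlgebra Λ S) = r • single g 1 := by
      rw [smul_single, smul_eq_mul, mul_one]
    rw [h1, map_smul, smul_mul_assoc, avg_smul, avg_left0, smul_mul_assoc]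

omit [Finite S] [Nonempty m] in
theorem avg_right (x : MonoidAlgebra Λ S) (a : Matrix m m Λ) :
    avg w τ h (a * τ x) = avg w τ h a * x := by
  induction x using MonoidAlgebra.induction_linear with
  | zero =>
    have h1 := avg_smul (w := w) τ h 0 a
    rw [zero_smul, zero_smul] at h1
    rw [map_zero, mul_zero, mul_zero, h1]
  | add y z hy hz => rw [map_add, mul_add, avg_add, hy, hz, mul_add]
  | single g r =>
    have h1 : (single g r : MonoidAlgebra Λ S) = r • single g 1 := by
      rw [smul_single, smul_eq_mul, mul_one]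
    rw [h1, map_smul, mul_smul_comm, avg_smul, avg_right0, mul_smul_comm]

omit [Finite S] [Nonempty m] in
theorem map_avg (hw : w * (Nat.card S : Λ) = 1) (hh : ∀ a, τ (h a) = a) (a : Matrix m m Λ) :
    τ (avg w τ h a) = a := by
  unfold avg
  rw [map_smul, map_sum]
  have h1 : ∀ s t : S, τ (single s 1 * h (τ (single s⁻¹ 1) * a * τ (single t⁻¹ 1)) * single t 1) =
      a := by
    intro s t
    rw [map_mul, map_mul, hh, ← mul_assoc, ← mul_assoc, ← map_mul, single_mul_single,
      mul_inv_cancel, mul_one, mul_assoc, ← map_mul, single_mul_single, inv_mul_cancel, mul_one,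
      ← one_def, map_one, one_mul, mul_one]
  have h2 : ∀ s : S, τ (∑ t : S,
      single s 1 * h (τ (single s⁻¹ 1) * a * τ (single t⁻¹ 1)) * single t 1) =
        (Nat.card S : Λ) • a := by
    intro s
    rw [map_sum, Finset.sum_congr rfl fun t _ => h1 s t, Finset.sum_const, Finset.card_univ,
      Nat.card_eq_fintype_card, Nat.cast_smul_eq_nsmul]
  rw [Finset.sum_congr rfl fun s _ => h2 s, Finset.sum_const, Finset.card_univ,
    ← Nat.card_eq_fintype_card, ← Nat.cast_smul_eq_nsmul Λ, smul_smul, smul_smul]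
  have h3 : w * w * (Nat.card S : Λ) * (Nat.card S : Λ) = 1 := by
    calc w * w * (Nat.card S : Λ) * (Nat.card S : Λ)
        = (w * (Nat.card S : Λ)) * (w * (Nat.card S : Λ)) := by ring
      _ = 1 := by rw [hw, one_mul]
  rw [h3, one_smul]

end ofh

variable {Λ : Type} [CommRing Λ] {S : Type} [Group S] [Finite S] {m : Type} [Fintype m]
  [Nonempty m]

/-- a surjective homomorphism from the group algebra onto a matrix algebra, different from the
augmentation, comes from a block -/
theorem exists_matBlock {w : Λ} (hw : w * (Nat.card S : Λ) = 1)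
    (τ : MonoidAlgebra Λ S →ₐ[Λ] Matrix m m Λ) (hτ : Function.Surjective τ)
    (h0 : ∑ᶠ s : S, τ (single s 1) = 0) : Nonempty (MatBlock Λ S m) := by
  have : Fintype S := Fintype.ofFinite _
  obtain ⟨h, hh⟩ := Module.projective_lifting_property τ.toLinearMap LinearMap.id hτ
  have hh' : ∀ a, τ (h a) = a := fun a => congrArg (fun f => f a) hh
  set ε := avg w τ h 1 with hε
  have h1 : ∀ x, ε * x = avg w τ h (τ x) := by
    intro x
    rw [hε, ← avg_right, one_mul]
  have h2 : ∀ x, x * ε = avg w τ h (τ x) := by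
    intro x
    rw [hε, ← avg_left, mul_one]
  have h3 : τ ε = 1 := map_avg τ h hw hh' 1
  have h4 : avg w τ h 0 = 0 := by
    have h5 := avg_smul (w := w) τ h 0 0
    rwa [zero_smul, zero_smul] at h5
  refine ⟨⟨τ, ε, hτ, fun x => ⟨fun hx => by rw [h1, hx, h4], fun hx => ?_⟩, fun x => by
    rw [h1, h2], by rw [h1, h3], ?_⟩⟩
  · have h5 := congrArg τ hx
    rwa [map_mul, h3, one_mul, map_zero] at h5
  · rw [finsum_eq_sum_of_fintype] at h0 ⊢
    have h5 : ε * ∑ s : S, single s 1 = 0 := by
      rw [h1, map_sum, h0, h4]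
    have h6 := congrArg (fun y : MonoidAlgebra Λ S => y.coeff 1) h5
    simp only [coeff_mul_sum] at h6
    have h7 : ∀ x : S, (∑ s : S, (single s 1 : MonoidAlgebra Λ S)).coeff (x⁻¹ * 1) = 1 := by
      intro x
      rw [coeff_sum, Finset.sum_apply', Finset.sum_eq_single (x⁻¹ * 1)]
      · rw [coeff_single, Finsupp.single_eq_same]
      · intro b _ hb
        rw [coeff_single, Finsupp.single_apply, if_neg hb]
      · intro h
        exact absurd (Finset.mem_univ _) h
    rw [Finset.sum_congr rfl fun x _ => by rw [h7 x, mul_one]] at h6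
    exact h6

theorem exists_matBlock' {w : Λ} (hw : w * (Nat.card S : Λ) = 1) [inst : DecidableEq m]
    (τ : MonoidAlgebra Λ S →ₐ[Λ] Matrix m m Λ) (hτ : Function.Surjective τ)
    (h0 : ∑ᶠ s : S, τ (single s 1) = 0) : Nonempty (MatBlock Λ S m) := by
  have h : inst = fun a b => Classical.propDecidable (a = b) := Subsingleton.elim _ _
  subst h
  exact exists_matBlock hw τ hτ h0

end Pool.Agent.Helper18.BR
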