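import Pool.Agent.Helper18.BR.Defs

/-!
# Primitive central idempotents, generalities
-/

set_option autoImplicit false
set_option linter.unusedSectionVars false

open scoped Classical

noncomputable section

namespace Pool.Agent.Helper18.BR

variable {Λ : Type} [CommRing Λ]

section transport

variable {A B : Type} [Ring A] [Algebra Λ A] [Ring B] [Algebra Λ B]

theorem IsAlg.one {e : A} {π : A →ₐ[Λ] B} (he : e * e = e) (h : ∀ x, π x = 0 ↔ e * x = 0) :
    π e = 1 := by
  have h1 : π (e - 1) = 0 := by
    rw [h, mul_sub, he, mul_one, sub_self]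
  rw [map_sub, map_one, sub_eq_zero] at h1
  exact h1

/-- transport of blocks along a surjective homomorphism with kernel generated by a central
idempotent -/
theorem isBlock_of_map {c e : A} (π : A →ₐ[Λ] B) (hs : Function.Surjective π)
    (hk : ∀ x, π x = 0 ↔ c * x = 0) (hc : ∀ x, c * x = x * c)
    (hce : c * e = e) (he : IsBlock (π e)) : IsBlock e := by
  obtain ⟨h1, h2, h3, h4⟩ := he
  have key : ∀ x y : A, π x = π y → c * x = c * y := by
    intro x y hxy
    have h : π (x - y) = 0 := by rw [map_sub, hxy, sub_self]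
    rw [hk, mul_sub, sub_eq_zero] at h
    exact h
  refine ⟨fun h => h1 (by rw [h, map_zero]), ?_, ?_, ?_⟩
  · have h5 := key (e * e) e (by rw [map_mul, h2])
    rw [← mul_assoc, hce] at h5
    exact h5
  · intro x
    have h5 := key (e * x) (x * e) (by rw [map_mul, h3, map_mul])
    rw [← mul_assoc, hce, ← mul_assoc, hc x, mul_assoc, hce] at h5
    exact h5
  · intro f hf1 hf2 hf3
    have hcf : c * f = f := by rw [← hf3, ← mul_assoc, hce]
    rcases h4 (π f) (by rw [← map_mul, hf1]) (fun y => by
      obtain ⟨x, rfl⟩ := hs y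
      rw [← map_mul, hf2, map_mul]) (by rw [← map_mul, hf3]) with h | h
    · left
      rw [hk, hcf] at h
      exact h
    · right
      have h5 := key f e h
      rw [hcf, hce] at h5
      exact h5

theorem isAlg_of_map {c e : A} (π : A →ₐ[Λ] B) (hs : Function.Surjective π)
    (hk : ∀ x, π x = 0 ↔ c * x = 0) (hce : c * e = e) {C : Type} [Ring C] [Algebra Λ C]
    (he : IsAlg Λ (π e) C) : IsAlg Λ e C := by
  obtain ⟨ρ, h1, h2⟩ := he
  refine ⟨ρ.comp π, h1.comp hs, fun x => ?_⟩
  rw [AlgHom.comp_apply, h2, ← map_mul, hk, ← mul_assoc, hce]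

end transport

section matrix

variable {B : Type} [Ring B] [Algebra Λ B] {n : Type} [Fintype n] [Nonempty n]

theorem scalar_central {e : B} (he : ∀ x, e * x = x * e) (M : Matrix n n B) :
    Matrix.scalar n e * M = M * Matrix.scalar n e := by
  ext i j
  rw [Matrix.scalar_apply, Matrix.diagonal_mul, Matrix.mul_diagonal, he]

/-- a central element of the matrix ring is scalar -/
theorem exists_scalar {M : Matrix n n B} (hM : ∀ N, M * N = N * M) :
    ∃ f : B, M = Matrix.scalar n f ∧ ∀ x, f * x = x * f := by
  obtain ⟨i₀⟩ := ‹Nonempty n›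
  refine ⟨M i₀ i₀, ?_, ?_⟩
  · ext i j
    have h1 := congrFun (congrFun (hM (Matrix.single j i₀ 1)) i) i₀
    rw [Matrix.mul_single_apply_same, mul_one] at h1
    by_cases hij : i = j
    · subst hij
      rw [Matrix.single_mul_apply_same, one_mul] at h1
      rw [Matrix.scalar_apply, Matrix.diagonal_apply_eq, h1]
    · rw [Matrix.single_mul_apply_of_ne (h := hij)] at h1
      rw [Matrix.scalar_apply, Matrix.diagonal_apply_ne _ hij, h1]
  · intro x
    have h1 := congrFun (congrFun (hM (Matrix.scalar n x)) i₀) i₀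
    rw [Matrix.scalar_apply, Matrix.diagonal_mul, Matrix.mul_diagonal] at h1
    exact h1

theorem isBlock_scalar {e : B} (he : IsBlock e) : IsBlock (Matrix.scalar n e) := by
  obtain ⟨h1, h2, h3, h4⟩ := he
  have inj : Function.Injective (Matrix.scalar n : B →+* Matrix n n B) := by
    intro x y hxy
    obtain ⟨i₀⟩ := ‹Nonempty n›
    have := congrFun (congrFun hxy i₀) i₀
    rwa [Matrix.scalar_apply, Matrix.scalar_apply, Matrix.diagonal_apply_eq,
      Matrix.diagonal_apply_eq] at this
  refine ⟨fun h => h1 (inj (by rw [h, map_zero])), by rw [← map_mul, h2], scalar_central h3, ?_⟩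
  intro f hf1 hf2 hf3
  obtain ⟨g, rfl, hg⟩ := exists_scalar hf2
  rcases h4 g (inj (by rw [map_mul, hf1])) hg (inj (by rw [map_mul, hf3])) with h | h
  · left
    rw [h, map_zero]
  · right
    rw [h]

theorem isAlg_scalar {e : B} {C : Type} [Ring C] [Algebra Λ C] (he : IsAlg Λ e C) :
    IsAlg Λ (Matrix.scalar n e) (Matrix n n C) := by
  obtain ⟨π, h1, h2⟩ := he
  refine ⟨π.mapMatrix, ?_, ?_⟩
  · intro M
    choose f hf using h1
    refine ⟨M.map f, ?_⟩
    ext i j
    simp [AlgHom.mapMatrix_apply, Matrix.map_apply, hf]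
  · intro M
    constructor
    · intro h
      ext i j
      rw [Matrix.scalar_apply, Matrix.diagonal_mul, Matrix.zero_apply, ← h2]
      exact congrFun (congrFun h i) j
    · intro h
      ext i j
      rw [AlgHom.mapMatrix_apply, Matrix.map_apply, Matrix.zero_apply, h2]
      have := congrFun (congrFun h i) j
      rwa [Matrix.scalar_apply, Matrix.diagonal_mul, Matrix.zero_apply] at this

end matrix

end Pool.Agent.Helper18.BR
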