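import Pool.Agent.Helper18.BR.Ofh

/-!
# The matrix block of a doubly transitive group
-/

set_option autoImplicit false
set_option linter.unusedSectionVars false

open scoped Classical
open MonoidAlgebra

noncomputable section

namespace Pool.Agent.Helper18.BR

section two

variable {Λ : Type} [CommRing Λ] {S : Type} [Group S] [Fintype S] {Ω : Type} [Fintype Ω]
  [MulAction S Ω]

/-- indicator function -/
def dl (a b : Ω) : Λ := if a = b then 1 else 0

theorem dl_self (a : Ω) : (dl a a : Λ) = 1 := if_pos rfl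

theorem dl_ne {a b : Ω} (h : a ≠ b) : (dl a b : Λ) = 0 := if_neg h

theorem sum_dl (f : Ω → Λ) (a : Ω) : ∑ k, f k * dl a k = f a := by
  rw [Finset.sum_eq_single a]
  · rw [dl_self, mul_one]
  · intro b _ hb
    rw [dl_ne (Ne.symm hb), mul_zero]
  · intro h
    exact absurd (Finset.mem_univ _) h

theorem sum_dl_one (a : Ω) : ∑ k, (dl a k : Λ) = 1 := by
  have h := sum_dl (fun _ => (1 : Λ)) a
  simpa only [one_mul] using h

theorem dl_smul (g : S) (a b : Ω) : (dl (g • a) (g • b) : Λ) = dl a b := by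
  by_cases h : a = b
  · rw [h, dl_self, dl_self]
  · rw [dl_ne h, dl_ne (fun h' => h (smul_left_cancel g h'))]

/-- the matrix of `g` on the vectors with sum zero -/
def tt (ω : Ω) (g : S) : Matrix {x : Ω // x ≠ ω} {x : Ω // x ≠ ω} Λ :=
  fun a b => dl (g • b.1) a.1 - dl (g • ω) a.1

theorem tt_one (ω : Ω) : (tt ω (1 : S) : Matrix _ _ Λ) = 1 := by
  ext a b
  change dl ((1 : S) • b.1) a.1 - dl ((1 : S) • ω) a.1 = _
  rw [one_smul, one_smul, dl_ne (Ne.symm a.2), sub_zero]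
  by_cases h : a = b
  · rw [h, dl_self, Matrix.one_apply_eq]
  · rw [Matrix.one_apply_ne h, dl_ne (fun h' => h (Subtype.ext h'.symm))]

theorem tt_mul (ω : Ω) (g h : S) :
    (tt ω (g * h) : Matrix _ _ Λ) = tt ω g * tt ω h := by
  ext a b
  rw [Matrix.mul_apply]
  change dl ((g * h) • b.1) a.1 - dl ((g * h) • ω) a.1 =
    ∑ k : {x : Ω // x ≠ ω}, (dl (g • k.1) a.1 - dl (g • ω) a.1) * (dl (h • b.1) k.1 - dl (h • ω) k.1)
  have h1 := Fintype.sum_eq_add_sum_subtype_ne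
    (fun k : Ω => (dl (g • k) a.1 - dl (g • ω) a.1 : Λ) * (dl (h • b.1) k - dl (h • ω) k)) ω
  simp only [sub_self, zero_mul, zero_add] at h1
  refine Eq.trans ?_ h1
  simp only [mul_sub]
  rw [Finset.sum_sub_distrib, sum_dl (fun k => (dl (g • k) a.1 - dl (g • ω) a.1 : Λ)),
    sum_dl (fun k => (dl (g • k) a.1 - dl (g • ω) a.1 : Λ)), mul_smul, mul_smul]
  ring

/-- the representation -/
def ttH (ω : Ω) : S →* Matrix {x : Ω // x ≠ ω} {x : Ω // x ≠ ω} Λ where
  toFun := tt ω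
  map_one' := tt_one ω
  map_mul' := tt_mul ω

/-- the homomorphism of algebras -/
def ttA (ω : Ω) : MonoidAlgebra Λ S →ₐ[Λ] Matrix {x : Ω // x ≠ ω} {x : Ω // x ≠ ω} Λ :=
  MonoidAlgebra.lift Λ _ S (ttH ω)

theorem ttA_single (ω : Ω) (g : S) (r : Λ) : ttA ω (single g r) = r • tt ω g := by
  unfold ttA
  rw [MonoidAlgebra.lift_single]
  rfl

/-- the numbers of the elements with two prescribed values -/
def nn (Λ S : Type) [CommRing Λ] [Group S] [Fintype S] [MulAction S Ω] (i b j a : Ω) : Λ :=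
  ∑ g : S, dl (g • i) j * dl (g • b) a

theorem nn_left (h : S) (i b j a : Ω) : nn Λ S i b (h • j) (h • a) = nn Λ S i b j a := by
  unfold nn
  refine Fintype.sum_equiv (Equiv.mulLeft h⁻¹) _ _ fun g => ?_
  rw [Equiv.coe_mulLeft, ← dl_smul h ((h⁻¹ * g) • i), ← dl_smul h ((h⁻¹ * g) • b), ← mul_smul,
    ← mul_smul, mul_inv_cancel_left]

theorem nn_right (h : S) (i b j a : Ω) : nn Λ S (h • i) (h • b) j a = nn Λ S i b j a := by
  unfold nn
  refine Fintype.sum_equiv (Equiv.mulRight h) _ _ fun g => ?_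
  rw [Equiv.coe_mulRight, mul_smul, mul_smul]

theorem nn_ne {i b j : Ω} (h : i ≠ b) : nn Λ S i b j j = 0 := by
  unfold nn
  refine Finset.sum_eq_zero fun g _ => ?_
  by_cases h1 : g • i = j
  · rw [dl_ne (a := g • b) (fun h2 => h (smul_left_cancel g (h1.trans h2.symm))), mul_zero]
  · rw [dl_ne h1, zero_mul]

theorem nn_ne' {i j a : Ω} (h : j ≠ a) : nn Λ S i i j a = 0 := by
  unfold nn
  refine Finset.sum_eq_zero fun g _ => ?_
  by_cases h1 : g • i = j
  · rw [h1, dl_ne h, mul_zero]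
  · rw [dl_ne h1, zero_mul]

/-- the number of the elements which map `i` to `j` -/
def n1 (Λ S : Type) [CommRing Λ] [Group S] [Fintype S] [MulAction S Ω] (i j : Ω) : Λ :=
  ∑ g : S, dl (g • i) j

theorem nn_self (i j : Ω) : nn Λ S i i j j = n1 Λ S i j := by
  unfold nn n1
  refine Finset.sum_congr rfl fun g _ => ?_
  by_cases h1 : g • i = j
  · rw [h1, dl_self, mul_one]
  · rw [dl_ne h1, mul_zero]

theorem n1_left (h : S) (i j : Ω) : n1 Λ S i (h • j) = n1 Λ S i j := by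
  unfold n1
  refine Fintype.sum_equiv (Equiv.mulLeft h⁻¹) _ _ fun g => ?_
  rw [Equiv.coe_mulLeft, ← dl_smul h ((h⁻¹ * g) • i), ← mul_smul, mul_inv_cancel_left]

theorem n1_right (h : S) (i j : Ω) : n1 Λ S (h • i) j = n1 Λ S i j := by
  unfold n1
  refine Fintype.sum_equiv (Equiv.mulRight h) _ _ fun g => ?_
  rw [Equiv.coe_mulRight, mul_smul]

theorem sum_nn (i b j : Ω) : ∑ a, nn Λ S i b j a = n1 Λ S i j := by
  unfold nn n1
  rw [Finset.sum_comm]
  refine Finset.sum_congr rfl fun g _ => ?_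
  rw [← Finset.mul_sum, sum_dl_one, mul_one]

theorem sum_n1 (i : Ω) : ∑ j, n1 Λ S i j = (Nat.card S : Λ) := by
  unfold n1
  rw [Finset.sum_comm, Finset.sum_congr rfl fun g _ => sum_dl_one (g • i), Finset.sum_const,
    Finset.card_univ, Nat.card_eq_fintype_card, nsmul_eq_mul, mul_one]

/-- the element which is mapped to a multiple of a matrix unit -/
def yy (Λ : Type) {S : Type} [CommRing Λ] [Group S] [Fintype S] [MulAction S Ω] (ω i j : Ω) :
    MonoidAlgebra Λ S := ∑ g : S, single g (dl (g • i) j - dl (g • i) ω)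

theorem ttA_yy {ω i j : Ω} (a b : {x : Ω // x ≠ ω}) : ttA ω (yy Λ (S := S) ω i j) a b =
    nn Λ S i b.1 j a.1 - nn Λ S i ω j a.1 - (nn Λ S i b.1 ω a.1 - nn Λ S i ω ω a.1) := by
  unfold yy
  rw [map_sum, Matrix.sum_apply]
  unfold nn
  rw [← Finset.sum_sub_distrib, ← Finset.sum_sub_distrib, ← Finset.sum_sub_distrib]
  refine Finset.sum_congr rfl fun g _ => ?_
  rw [ttA_single, Matrix.smul_apply, smul_eq_mul]
  change _ * (dl (g • b.1) a.1 - dl (g • ω) a.1) = _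
  ring

section trans

variable (h2 : ∀ {a b c d : Ω}, a ≠ b → c ≠ d → ∃ g : S, g • a = c ∧ g • b = d)

include h2

theorem nn_eq {i b j a i' b' j' a' : Ω} (h : i ≠ b) (h' : j ≠ a) (h3 : i' ≠ b') (h4 : j' ≠ a') :
    nn Λ S i b j a = nn Λ S i' b' j' a' := by
  obtain ⟨g, hg1, hg2⟩ := h2 h3 h
  obtain ⟨g', hg3, hg4⟩ := h2 h4 h'
  rw [← hg1, ← hg2, ← hg3, ← hg4, nn_left, nn_right]

theorem n1_eq {ω i0 : Ω} (h0 : i0 ≠ ω) (i j i' j' : Ω) : n1 Λ S i j = n1 Λ S i' j' := by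
  have ht : ∀ x y : Ω, ∃ g : S, g • x = y := by
    intro x y
    have hx : ∃ x' : Ω, x ≠ x' := by
      by_cases h : x = ω
      · exact ⟨i0, by rw [h]; exact h0.symm⟩
      · exact ⟨ω, h⟩
    have hy : ∃ y' : Ω, y ≠ y' := by
      by_cases h : y = ω
      · exact ⟨i0, by rw [h]; exact h0.symm⟩
      · exact ⟨ω, h⟩
    obtain ⟨x', hx'⟩ := hx
    obtain ⟨y', hy'⟩ := hy
    obtain ⟨g, hg, _⟩ := h2 hx' hy'
    exact ⟨g, hg⟩
  obtain ⟨g, rfl⟩ := ht i' i
  obtain ⟨g', rfl⟩ := ht j' j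
  rw [n1_left, n1_right]

theorem ttA_yy_eq {ω : Ω} (i j a b : {x : Ω // x ≠ ω}) :
    ttA ω (yy Λ (S := S) ω i.1 j.1) a b =
      if a = j ∧ b = i then n1 Λ S i.1 j.1 + nn Λ S i.1 ω ω i.1 else 0 := by
  rw [ttA_yy]
  have e1 : nn Λ S i.1 ω ω a.1 = nn Λ S i.1 ω ω i.1 :=
    nn_eq h2 i.2 (Ne.symm a.2) i.2 (Ne.symm i.2)
  by_cases hb : b = i
  · subst hb
    rw [e1, nn_ne' (Ne.symm a.2)]
    by_cases ha : a = j
    · subst ha
      rw [if_pos ⟨rfl, rfl⟩, nn_self, nn_ne b.2]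
      ring
    · rw [if_neg (fun h => ha h.1), nn_ne' (fun h => ha (Subtype.ext h.symm)),
        nn_eq h2 b.2 (fun h => ha (Subtype.ext h.symm)) b.2 (Ne.symm b.2)]
      ring
  · have hib : i.1 ≠ b.1 := fun h => hb (Subtype.ext h.symm)
    rw [e1, nn_eq h2 hib (Ne.symm a.2) i.2 (Ne.symm i.2), if_neg (fun h => hb h.2)]
    by_cases ha : a = j
    · subst ha
      rw [nn_ne hib, nn_ne i.2]
      ring
    · have hja : j.1 ≠ a.1 := fun h => ha (Subtype.ext h.symm)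
      rw [nn_eq h2 hib hja i.2 hja]
      ring

theorem card_eq {ω i : Ω} (hi : i ≠ ω) : (Nat.card S : Λ) =
    (n1 Λ S i i + nn Λ S i ω ω i) * ((Nat.card Ω : Λ) - 1) := by
  have h1 : (Nat.card S : Λ) = (Nat.card Ω : Λ) * n1 Λ S i i := by
    rw [← sum_n1 (Λ := Λ) (S := S) i, Finset.sum_congr rfl fun j _ => n1_eq h2 hi i j i i,
      Finset.sum_const, Finset.card_univ, Nat.card_eq_fintype_card, nsmul_eq_mul]
  have h3 : n1 Λ S i i = ((Nat.card Ω : Λ) - 1) * nn Λ S i ω ω i := by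
    have h4 := sum_nn (Λ := Λ) (S := S) i ω i
    rw [Fintype.sum_eq_add_sum_subtype_ne _ i, nn_ne hi, zero_add] at h4
    rw [Finset.sum_congr rfl fun a : {x : Ω // x ≠ i} => fun _ =>
      nn_eq (Λ := Λ) h2 hi (Ne.symm a.2) hi (Ne.symm hi), Finset.sum_const, Finset.card_univ,
      nsmul_eq_mul] at h4
    have h5 := Fintype.sum_eq_add_sum_subtype_ne (fun _ : Ω => (1 : Λ)) i
    simp only [Finset.sum_const, Finset.card_univ, nsmul_eq_mul, mul_one] at h5
    rw [Nat.card_eq_fintype_card, h5, add_sub_cancel_left]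
    exact h4.symm
  rw [h1]
  calc (Nat.card Ω : Λ) * n1 Λ S i i = n1 Λ S i i * ((Nat.card Ω : Λ) - 1) + n1 Λ S i i := by ring
    _ = n1 Λ S i i * ((Nat.card Ω : Λ) - 1) + ((Nat.card Ω : Λ) - 1) * nn Λ S i ω ω i := by
        rw [← h3]
    _ = _ := by ring

theorem ttA_surj {ω : Ω} (hu : IsUnit (Nat.card S : Λ)) :
    Function.Surjective (ttA (Λ := Λ) (S := S) ω) := by
  intro M
  have key : ∀ i : {x : Ω // x ≠ ω}, ∃ v : Λ, ∀ j : {x : Ω // x ≠ ω},
      v * (n1 Λ S i.1 j.1 + nn Λ S i.1 ω ω i.1) = 1 := by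
    intro i
    rw [card_eq h2 i.2] at hu
    obtain ⟨v, hv⟩ := (isUnit_of_mul_isUnit_left hu).exists_left_inv
    refine ⟨v, fun j => ?_⟩
    rw [n1_eq h2 i.2 i.1 j.1 i.1 i.1, hv]
  choose v hv using key
  refine ⟨∑ i : {x : Ω // x ≠ ω}, ∑ j : {x : Ω // x ≠ ω}, (v i * M j i) • yy Λ ω i.1 j.1, ?_⟩
  ext a b
  rw [map_sum, Matrix.sum_apply, Finset.sum_eq_single b]
  · rw [map_sum, Matrix.sum_apply, Finset.sum_eq_single a]
    · rw [map_smul, Matrix.smul_apply, ttA_yy_eq h2, if_pos ⟨rfl, rfl⟩, smul_eq_mul,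
        mul_right_comm, hv, one_mul]
    · intro j _ hj
      rw [map_smul, Matrix.smul_apply, ttA_yy_eq h2, if_neg (fun h => hj h.1.symm), smul_zero]
    · intro h
      exact absurd (Finset.mem_univ _) h
  · intro i _ hi
    rw [map_sum, Matrix.sum_apply]
    refine Finset.sum_eq_zero fun j _ => ?_
    rw [map_smul, Matrix.smul_apply, ttA_yy_eq h2, if_neg (fun h => hi h.2.symm), smul_zero]
  · intro h
    exact absurd (Finset.mem_univ _) h

theorem ttA_sum {ω : Ω} : ∑ g : S, ttA (Λ := Λ) ω (single g 1) = 0 := by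
  ext a b
  rw [Matrix.sum_apply]
  have h1 : ∀ g : S, ttA (Λ := Λ) ω (single g 1) a b = dl (g • b.1) a.1 - dl (g • ω) a.1 := by
    intro g
    rw [ttA_single, one_smul]
    rfl
  rw [Finset.sum_congr rfl fun g _ => h1 g, Finset.sum_sub_distrib]
  change n1 Λ S b.1 a.1 - n1 Λ S ω a.1 = 0
  rw [n1_eq h2 a.2 b.1 a.1 ω a.1, sub_self]

end trans

end two

/-- a doubly transitive group of order invertible in `Λ` has a matrix block different from the
principal block -/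
theorem matBlock_two {Λ : Type} [CommRing Λ] {S : Type} [Group S] [Finite S] {Ω : Type} [Finite Ω]
    [Nontrivial Ω] [MulAction S Ω]
    (h2 : ∀ a b c d : Ω, a ≠ b → c ≠ d → ∃ g : S, g • a = c ∧ g • b = d)
    (hu : IsUnit (Nat.card S : Λ)) :
    ∃ (m : Type) (_ : Fintype m) (_ : Nonempty m), Nonempty (MatBlock Λ S m) := by
  have : Fintype S := Fintype.ofFinite S
  have : Fintype Ω := Fintype.ofFinite Ω
  obtain ⟨ω, i0, h0⟩ := exists_pair_ne Ω
  obtain ⟨w, hw⟩ := hu.exists_left_inv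
  have : Nonempty {x : Ω // x ≠ ω} := ⟨⟨i0, Ne.symm h0⟩⟩
  have h2' : ∀ {a b c d : Ω}, a ≠ b → c ≠ d → ∃ g : S, g • a = c ∧ g • b = d :=
    fun h h' => h2 _ _ _ _ h h'
  have h3 : ∑ᶠ g : S, ttA (Λ := Λ) ω (single g 1) = 0 := by
    rw [finsum_eq_sum_of_fintype]
    exact ttA_sum h2'
  exact ⟨{x : Ω // x ≠ ω}, _, this,
    exists_matBlock' hw (ttA (Λ := Λ) (S := S) ω) (ttA_surj h2' hu) h3⟩

end Pool.Agent.Helper18.BR
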