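import Pool.Agent.Helper18.BR.Cor

/-!
# Permutational wreath products
-/

set_option autoImplicit false
set_option linter.unusedSectionVars false

open scoped Classical
open MonoidAlgebra SemidirectProduct

noncomputable section

namespace Pool.Agent.Helper18.BR

section wr

variable {S H G : Type} [Group S] [Finite S] [Group H] [Finite H] [Group G] [Finite G]
  (i : G →* H)

/-- the wreath product for the cosets of the subgroup `i(G)` of `H` -/
abbrev WX (S : Type) [Group S] (i : G →* H) : Type := Wr S H (H ⧸ i.range)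

/-- the base point -/
def bo : H ⧸ i.range := QuotientGroup.mk 1

theorem smul_bo (h : H) : h • bo i = bo i ↔ h ∈ i.range := by
  change (QuotientGroup.mk (h * 1) : H ⧸ i.range) = QuotientGroup.mk 1 ↔ _
  rw [mul_one, eq_comm, QuotientGroup.eq, inv_one, one_mul]

theorem arrow_apply (h : H) (f : H ⧸ i.range → S) (w : H ⧸ i.range) :
    (mulAutArrow h f : H ⧸ i.range → S) w = f (h⁻¹ • w) := rfl

/-- the subgroup of the elements which fix the base point -/
def TT (S : Type) [Group S] (i : G →* H) : Subgroup (WX S i) := i.range.comap rightHom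

theorem mem_TT (x : WX S i) : x ∈ TT S i ↔ x.right ∈ i.range := Iff.rfl

variable {i} (hi : Function.Injective i)

/-- the component in `G` -/
def kG (t : TT S i) : G := (MonoidHom.ofInjective hi).symm ⟨t.1.right, t.2⟩

theorem i_kG (t : TT S i) : i (kG hi t) = t.1.right := by
  have h := (MonoidHom.ofInjective hi).apply_symm_apply ⟨t.1.right, t.2⟩
  exact congrArg Subtype.val h

theorem kG_eq {t : TT S i} {g : G} (h : t.1.right = i g) : kG hi t = g :=
  hi (by rw [i_kG, h])

/-- the homomorphism onto `S × G` -/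
def kap : TT S i →* S × G where
  toFun t := (t.1.left (bo i), kG hi t)
  map_one' := by
    refine Prod.ext rfl ?_
    exact kG_eq hi (g := 1) (map_one i).symm
  map_mul' t t' := by
    refine Prod.ext ?_ ?_
    · change (t.1 * t'.1).left (bo i) = _
      rw [SemidirectProduct.mul_left, Pi.mul_apply, arrow_apply,
        (smul_bo i _).2 (i.range.inv_mem ((mem_TT i _).1 t.2))]
      rfl
    · refine kG_eq hi ?_
      change (t.1 * t'.1).right = _
      rw [SemidirectProduct.mul_right, Prod.snd_mul, map_mul, i_kG, i_kG]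

theorem kap_fst (t : TT S i) : (kap hi t).1 = t.1.left (bo i) := rfl

theorem kap_snd (t : TT S i) : (kap hi t).2 = kG hi t := rfl

theorem i_kap (t : TT S i) : i (kap hi t).2 = t.1.right := i_kG hi t

theorem kap_eq {t : TT S i} {s : S} {g : G} (h1 : t.1.left (bo i) = s) (h2 : t.1.right = i g) :
    kap hi t = (s, g) := Prod.ext h1 (kG_eq hi h2)

/-- the element with constant left component -/
def cst (S : Type) [Group S] (i : G →* H) (s : S) (g : G) : TT S i := ⟨⟨fun _ => s, i g⟩, ⟨g, rfl⟩⟩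

theorem kap_cst (s : S) (g : G) : kap hi (cst S i s g) = (s, g) := kap_eq hi rfl rfl

theorem kap_surj : Function.Surjective (kap (S := S) hi) := fun p => ⟨cst S i p.1 p.2, kap_cst hi _ _⟩

theorem right_of_ker {t : TT S i} (h : kap hi t = 1) : t.1.right = 1 := by
  rw [← i_kap hi, h, Prod.snd_one, map_one]

theorem card_ker_dvd : Nat.card (kap (S := S) hi).ker ∣ Nat.card (H ⧸ i.range → S) := by
  let f : (kap (S := S) hi).ker →* (H ⧸ i.range → S) :=
    { toFun := fun t => t.1.1.left
      map_one' := rfl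
      map_mul' := fun t t' => by
        change (t.1.1 * t'.1.1).left = _
        rw [SemidirectProduct.mul_left, right_of_ker hi (MonoidHom.mem_ker.1 t.2), map_one]
        rfl }
  refine Subgroup.card_dvd_of_injective f ?_
  intro t t' h
  apply Subtype.ext
  apply Subtype.ext
  refine SemidirectProduct.ext h ?_
  rw [right_of_ker hi (MonoidHom.mem_ker.1 t.2), right_of_ker hi (MonoidHom.mem_ker.1 t'.2)]

/-- the copy of `S` at the base point -/
def jj (i : G →* H) (s : S) : WX S i := inl (Pi.mulSingle (bo i) s)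

theorem jj_mem (s : S) : jj i s ∈ TT S i := ⟨1, map_one i⟩

theorem kap_jj (s : S) : kap hi ⟨jj i s, jj_mem s⟩ = (s, 1) :=
  kap_eq hi (Pi.mulSingle_eq_same (M := fun _ => S) (bo i) s) (map_one i).symm

theorem conj_left (x : WX S i) (f : H ⧸ i.range → S) :
    (x⁻¹ * inl f * x).left = mulAutArrow x.right⁻¹ (x.left⁻¹ * f * x.left) ∧
      (x⁻¹ * inl f * x).right = 1 := by
  constructor
  · rw [SemidirectProduct.mul_left, SemidirectProduct.mul_left, SemidirectProduct.mul_right,
      SemidirectProduct.inv_left, SemidirectProduct.inv_right, left_inl, right_inl, mul_one,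
      map_mul, map_mul]
  · rw [SemidirectProduct.mul_right, SemidirectProduct.mul_right, SemidirectProduct.inv_right,
      right_inl, mul_one, inv_mul_cancel]

theorem conj_jj {x : WX S i} (hx : x ∉ TT S i) (s : S) :
    ∃ h : x⁻¹ * jj i s * x ∈ TT S i, kap hi ⟨_, h⟩ = 1 := by
  obtain ⟨h1, h2⟩ := conj_left x (Pi.mulSingle (bo i) s)
  refine ⟨⟨1, (map_one i).trans h2.symm⟩, kap_eq hi ?_ (h2.trans (map_one i).symm)⟩
  change (x⁻¹ * inl (Pi.mulSingle (bo i) s) * x).left (bo i) = 1
  rw [h1, arrow_apply, inv_inv]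
  have h3 : x.right • bo i ≠ bo i := fun h => hx ((smul_bo i _).1 h)
  rw [Pi.mul_apply, Pi.mul_apply, Pi.mulSingle_eq_of_ne h3, mul_one, Pi.inv_apply, inv_mul_cancel]

theorem sep_kap : Sep (kap (S := S) hi) := by
  intro x hx
  choose h1 h2 using conj_jj hi hx
  exact ⟨fun s => ⟨jj i s, jj_mem s⟩, fun s => ⟨_, h1 s⟩, fun s => kap_jj hi s,
    fun s => ⟨h2 s, rfl⟩⟩

/-! ### the subgroup of the wreath product which belongs to a subgroup `D` of `G` -/

/-- the image of `D` -/
def EE (S : Type) [Group S] (i : G →* H) (D : Subgroup G) : Subgroup (WX S i) :=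
  D.map ((inr : H →* WX S i).comp i)

theorem mem_EE {D : Subgroup G} {x : WX S i} : x ∈ EE S i D ↔ ∃ d ∈ D, inr (i d) = x := Iff.rfl

theorem EE_le (D : Subgroup G) : EE S i D ≤ TT S i := by
  rintro x ⟨d, _, rfl⟩
  exact ⟨d, rfl⟩

theorem kap_inr (d : G) (h : (inr (i d) : WX S i) ∈ TT S i) : kap hi ⟨inr (i d), h⟩ = (1, d) :=
  kap_eq hi rfl rfl

theorem EE_pgroup {p : ℕ} {D : Subgroup G} (hD : IsPGroup p D) : IsPGroup p (EE S i D) :=
  hD.map _

theorem EE_comm {D : Subgroup G} (hD : ∀ x ∈ D, ∀ y ∈ D, x * y = y * x) :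
    ∀ x ∈ EE S i D, ∀ y ∈ EE S i D, x * y = y * x := by
  rintro x ⟨d, hd, rfl⟩ y ⟨d', hd', rfl⟩
  rw [← map_mul, hD d hd d' hd', map_mul]

theorem match_EE (D : Subgroup G) : Match (kap (S := S) hi) ((EE S i D).subgroupOf (TT S i)) D where
  fst := by
    rintro ⟨x, hx⟩ h
    obtain ⟨d, hd, rfl⟩ := mem_EE.1 (Subgroup.mem_subgroupOf.1 h)
    rw [kap_inr]
  snd := by
    rintro ⟨x, hx⟩ h
    obtain ⟨d, hd, rfl⟩ := mem_EE.1 (Subgroup.mem_subgroupOf.1 h)
    rw [kap_inr]
    exact hd
  ex := by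
    intro d hd
    refine ⟨⟨inr (i d), EE_le D ⟨d, hd, rfl⟩⟩, ?_, kap_inr hi d _⟩
    rw [Subgroup.mem_subgroupOf]
    exact ⟨d, hd, rfl⟩
  inj := by
    rintro ⟨x, hx⟩ h h1
    obtain ⟨d, hd, rfl⟩ := mem_EE.1 (Subgroup.mem_subgroupOf.1 h)
    rw [kap_inr] at h1
    have h2 : d = 1 := congrArg Prod.snd h1
    subst h2
    ext1
    simp

/-- elements with constant left component commute with the image of `D` -/
theorem cst_cent {D : Subgroup G} (s : S) {g : G} (hg : g ∈ Subgroup.centralizer (D : Set G)) :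
    cst S i s g ∈ Subgroup.centralizer ((EE S i D).subgroupOf (TT S i) : Set (TT S i)) := by
  rw [mem_cent]
  rintro ⟨x, hx⟩ h
  obtain ⟨d, hd, rfl⟩ := mem_EE.1 (Subgroup.mem_subgroupOf.1 h)
  ext1
  change (inr (i d) : WX S i) * ⟨fun _ => s, i g⟩ = ⟨fun _ => s, i g⟩ * inr (i d)
  have h1 := mem_cent.1 hg d hd
  refine SemidirectProduct.ext ?_ ?_
  · funext w
    rw [SemidirectProduct.mul_left, SemidirectProduct.mul_left, left_inr, right_inr, map_one,
      one_mul, mul_one]
    rfl
  · rw [SemidirectProduct.mul_right, SemidirectProduct.mul_right, right_inr]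
    change i d * i g = i g * i d
    rw [← map_mul, h1, map_mul]

/-- the elements `inl f` with `f` fixed by `D` commute with the image of `D` -/
theorem inl_comm {f : H ⧸ i.range → S} {h : H} (hf : (mulAutArrow h f : H ⧸ i.range → S) = f) :
    (inr h : WX S i) * inl f = inl f * inr h := by
  refine SemidirectProduct.ext ?_ ?_
  · rw [SemidirectProduct.mul_left, SemidirectProduct.mul_left, left_inr, right_inr, left_inl,
      right_inl, map_one, one_mul, mul_one, hf]
  · rw [SemidirectProduct.mul_right, SemidirectProduct.mul_right, right_inr, right_inl, mul_one,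
      one_mul]

theorem jj_comm (s : S) (d : G) : (inr (i d) : WX S i) * jj i s = jj i s * inr (i d) := by
  apply inl_comm
  funext w
  rw [arrow_apply]
  have h1 : (i d)⁻¹ • bo i = bo i := (smul_bo i _).2 (i.range.inv_mem ⟨d, rfl⟩)
  by_cases hw : w = bo i
  · rw [hw, h1]
  · have h2 : (i d)⁻¹ • w ≠ bo i := by
      intro h
      apply hw
      rw [← h1] at h
      exact smul_left_cancel _ h
    rw [Pi.mulSingle_eq_of_ne h2, Pi.mulSingle_eq_of_ne hw]

theorem jj_nm (D : Subgroup G) (s : S) : jj i s ∈ Nm (EE S i D) := by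
  refine Subgroup.mem_normalizer_fintype fun n hn => ?_
  obtain ⟨d, hd, rfl⟩ := hn
  change jj i s * inr (i d) * (jj i s)⁻¹ ∈ EE S i D
  rw [← jj_comm, mul_inv_cancel_right]
  exact ⟨d, hd, rfl⟩

theorem cst_nm {D : Subgroup G} (s : S) {g : G} (hg : g ∈ Nm D) :
    ((cst S i s g : TT S i) : WX S i) ∈ Nm (EE S i D) := by
  refine Subgroup.mem_normalizer_fintype fun n hn => ?_
  obtain ⟨d, hd, rfl⟩ := hn
  have h1 := (Subgroup.mem_normalizer_iff.1 hg d).1 hd
  refine ⟨_, h1, ?_⟩
  change (inr (i (g * d * g⁻¹)) : WX S i) = ⟨fun _ => s, i g⟩ * inr (i d) * (⟨fun _ => s, i g⟩)⁻¹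
  rw [eq_mul_inv_iff_mul_eq]
  refine SemidirectProduct.ext ?_ ?_
  · rw [SemidirectProduct.mul_left, SemidirectProduct.mul_left, left_inr, left_inr, right_inr,
      map_one, one_mul, mul_one]
    rfl
  · rw [SemidirectProduct.mul_right, SemidirectProduct.mul_right, right_inr, right_inr]
    change i (g * d * g⁻¹) * i g = i g * i d
    rw [← map_mul, ← map_mul, inv_mul_cancel_right]

/-! ### the normalizer -/

variable {D : Subgroup G}

theorem kap_nm {t : TT S i} (ht : (t : WX S i) ∈ Nm (EE S i D)) : (kap hi t).2 ∈ Nm D := by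
  refine Subgroup.mem_normalizer_fintype fun d hd => ?_
  have h1 : (inr (i d) : WX S i) ∈ EE S i D := ⟨d, hd, rfl⟩
  have h2 := (Subgroup.mem_normalizer_iff.1 ht _).1 h1
  have h3 := (match_EE hi D).snd (t * ⟨inr (i d), EE_le D h1⟩ * t⁻¹) (by
    rw [Subgroup.mem_subgroupOf]
    exact h2)
  rw [map_mul, map_mul, map_inv, kap_inr] at h3
  exact h3

/-- the homomorphism for the normalizer -/
def kapY (D : Subgroup G) : (TT S i).subgroupOf (Nm (EE S i D)) →* S × Nm D where
  toFun t := ((kap hi ⟨t.1.1, t.2⟩).1, ⟨(kap hi ⟨t.1.1, t.2⟩).2, kap_nm hi t.1.2⟩)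
  map_one' := by
    have h := map_one (kap (S := S) hi)
    have h1 := congrArg Prod.fst h
    have h2 := congrArg Prod.snd h
    refine Prod.ext ?_ (Subtype.ext ?_)
    · exact h1
    · exact h2
  map_mul' t t' := by
    have h := map_mul (kap (S := S) hi) ⟨t.1.1, t.2⟩ ⟨t'.1.1, t'.2⟩
    have h1 := congrArg Prod.fst h
    have h2 := congrArg Prod.snd h
    refine Prod.ext ?_ (Subtype.ext ?_)
    · exact h1
    · exact h2

theorem kapY_fst (t : (TT S i).subgroupOf (Nm (EE S i D))) :
    (kapY hi D t).1 = (kap hi ⟨t.1.1, t.2⟩).1 := rfl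

theorem kapY_snd (t : (TT S i).subgroupOf (Nm (EE S i D))) :
    ((kapY hi D t).2 : G) = (kap hi ⟨t.1.1, t.2⟩).2 := rfl

theorem kapY_eq {t : (TT S i).subgroupOf (Nm (EE S i D))} {s : S} {g : Nm D}
    (h : kap hi ⟨t.1.1, t.2⟩ = (s, g.1)) : kapY hi D t = (s, g) := by
  have h1 := congrArg Prod.fst h
  have h2 := congrArg Prod.snd h
  refine Prod.ext ?_ (Subtype.ext ?_)
  · exact h1
  · exact h2

theorem kapY_surj : Function.Surjective (kapY (S := S) hi D) := by
  rintro ⟨s, g, hg⟩
  exact ⟨⟨⟨_, cst_nm s hg⟩, (cst S i s g).2⟩, kapY_eq hi (kap_cst hi s g)⟩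

theorem sep_kapY : Sep (kapY (S := S) hi D) := by
  intro y hy
  have hy' : (y : WX S i) ∉ TT S i := hy
  choose h1 h2 using conj_jj hi hy'
  refine ⟨fun s => ⟨⟨jj i s, jj_nm D s⟩, jj_mem s⟩,
    fun s => ⟨⟨(y : WX S i)⁻¹ * jj i s * y, (Nm (EE S i D)).mul_mem ((Nm (EE S i D)).mul_mem
      ((Nm (EE S i D)).inv_mem y.2) (jj_nm D s)) y.2⟩, h1 s⟩, fun s => ?_, fun s => ⟨?_, ?_⟩⟩
  · exact kapY_eq hi (kap_jj hi s)
  · exact kapY_eq hi (h2 s)
  · rfl

/-- the orders of the kernels are congruent modulo `p` -/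
theorem card_ker_modEq (p : ℕ) [Fact p.Prime] (hD : IsPGroup p D) :
    Nat.card (kap (S := S) hi).ker ≡ Nat.card (kapY (S := S) hi D).ker [MOD p] := by
  have hE : IsPGroup p (EE S i D) := EE_pgroup hD
  let K := (kap (S := S) hi).ker
  have hmem : ∀ (d : EE S i D) (k : K), (⟨d.1, EE_le D d.2⟩ : TT S i) * k.1 *
      (⟨d.1, EE_le D d.2⟩ : TT S i)⁻¹ ∈ K := by
    intro d k
    rw [MonoidHom.mem_ker, map_mul, map_mul, MonoidHom.mem_ker.1 k.2, mul_one, map_inv,
      mul_inv_cancel]
  let _ : MulAction (EE S i D) K :=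
    { smul := fun d k => ⟨_, hmem d k⟩
      one_smul := fun k => by
        apply Subtype.ext
        apply Subtype.ext
        change ((1 : EE S i D) : WX S i) * k.1.1 * ((1 : EE S i D) : WX S i)⁻¹ = _
        simp
      mul_smul := fun d d' k => by
        apply Subtype.ext
        apply Subtype.ext
        change ((d * d' : EE S i D) : WX S i) * k.1.1 * ((d * d' : EE S i D) : WX S i)⁻¹ =
          (d : WX S i) * ((d' : WX S i) * k.1.1 * (d' : WX S i)⁻¹) * (d : WX S i)⁻¹
        push_cast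
        group }
  have h1 := hE.card_modEq_card_fixedPoints K
  have e : MulAction.fixedPoints (EE S i D) K ≃ (kapY (S := S) hi D).ker := by
    have hfix : ∀ k : K, k ∈ MulAction.fixedPoints (EE S i D) K ↔
        ∀ d ∈ EE S i D, d * k.1.1 * d⁻¹ = k.1.1 := by
      intro k
      constructor
      · intro h d hd
        exact congrArg (fun k : K => k.1.1) (h ⟨d, hd⟩)
      · intro h d
        apply Subtype.ext
        apply Subtype.ext
        exact h d.1 d.2
    have hnm : ∀ k : K, k.1.1 ∈ Nm (EE S i D) ↔ k ∈ MulAction.fixedPoints (EE S i D) K := by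
      intro k
      rw [hfix]
      constructor
      · intro h d hd
        have h2 := (Subgroup.mem_normalizer_iff.1 h d).1 hd
        have h3 := (EE S i D).mul_mem h2 ((EE S i D).inv_mem hd)
        have h4 := (match_EE hi D).inj (k.1 * ⟨d, EE_le D hd⟩ * k.1⁻¹ * (⟨d, EE_le D hd⟩)⁻¹) (by
          rw [Subgroup.mem_subgroupOf]
          exact h3) (by
          rw [map_mul, map_mul, map_mul, map_inv, map_inv, MonoidHom.mem_ker.1 k.2]
          simp)
        have h5 : k.1.1 * d * k.1.1⁻¹ * d⁻¹ = 1 := congrArg Subtype.val h4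
        have h6 : k.1.1 * d * k.1.1⁻¹ = d := mul_inv_eq_one.1 h5
        have h7 : k.1.1 * d = d * k.1.1 := mul_inv_eq_iff_eq_mul.1 h6
        rw [← h7, mul_inv_cancel_right]
      · intro h
        refine Subgroup.mem_normalizer_fintype fun d hd => ?_
        have h2 : d * k.1.1 = k.1.1 * d := mul_inv_eq_iff_eq_mul.1 (h d hd)
        rw [← h2, mul_inv_cancel_right]
        exact hd
    exact
      { toFun := fun k => ⟨⟨⟨k.1.1.1, (hnm k.1).2 k.2⟩, k.1.1.2⟩, by
          rw [MonoidHom.mem_ker]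
          exact kapY_eq hi (MonoidHom.mem_ker.1 k.1.2)⟩
        invFun := fun k => ⟨⟨⟨k.1.1.1, k.1.2⟩, by
          have h2 := MonoidHom.mem_ker.1 k.2
          have h3 := congrArg Prod.fst h2
          have h4 := congrArg (fun x : S × Nm D => (x.2 : G)) h2
          rw [MonoidHom.mem_ker]
          refine Prod.ext ?_ ?_
          · exact h3
          · exact h4⟩, (hnm _).1 k.1.1.2⟩
        left_inv := fun k => rfl
        right_inv := fun k => rfl }
  rw [← Nat.card_congr e]
  exact h1

end wr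

end Pool.Agent.Helper18.BR
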